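import Pool.Agent.H91R2.SC.Defs
import Pool.Agent.Helper884.IC.Compl

open scoped BigOperators MatrixGroups Classical

namespace Pool.Agent.H91R2.SC

set_option linter.unusedSectionVars false

variable {n : ℕ} {F : Type} [Field F]

theorem twoSided_coe (u v : UT n F) (y : NT n F) :
    (twoSided u v y : Matrix (Fin n) (Fin n) F) =
      ((u : GL (Fin n) F) : Matrix (Fin n) (Fin n) F) * (y : Matrix (Fin n) (Fin n) F) *
      ((v : GL (Fin n) F) : Matrix (Fin n) (Fin n) F) := rfl

theorem twoSided_twoSided (u v u' v' : UT n F) (y : NT n F) :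
    twoSided u v (twoSided u' v' y) = twoSided (u * u') (v' * v) y := by
  apply Subtype.ext
  simp only [twoSided_coe, Subgroup.coe_mul, Matrix.GeneralLinearGroup.coe_mul, Matrix.mul_assoc]

theorem twoSided_one (y : NT n F) : twoSided 1 1 y = y := by
  apply Subtype.ext
  simp [twoSided_coe]

theorem act_apply (u v : UT n F) (mu : Module.Dual F (NT n F)) (y : NT n F) :
    act u v mu y = mu (twoSided u v y) := rfl

theorem act_act (u v u' v' : UT n F) (mu : Module.Dual F (NT n F)) :
    act u v (act u' v' mu) = act (u' * u) (v * v') mu := by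
  ext y
  simp only [act_apply, twoSided_twoSided]

theorem act_one (mu : Module.Dual F (NT n F)) : act 1 1 mu = mu := by
  ext y
  simp only [act_apply, twoSided_one]

theorem mem_orbit_self (lam : Module.Dual F (NT n F)) : lam ∈ orbit lam :=
  ⟨1, 1, (act_one lam).symm⟩

theorem orbit_eq {lam mu : Module.Dual F (NT n F)} (h : mu ∈ orbit lam) : orbit mu = orbit lam := by
  obtain ⟨u, v, rfl⟩ := h
  ext nu
  constructor
  · rintro ⟨u', v', rfl⟩
    exact ⟨u * u', v' * v, by rw [act_act]⟩
  · rintro ⟨u', v', rfl⟩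
    exact ⟨u⁻¹ * u', v' * v⁻¹, by rw [act_act]; simp [mul_assoc]⟩

theorem act_mem_orbit (u v : UT n F) (mu lam : Module.Dual F (NT n F)) :
    act u v mu ∈ orbit lam ↔ mu ∈ orbit lam := by
  constructor
  · intro h
    have h1 : act u v mu ∈ orbit mu := ⟨u, v, rfl⟩
    rw [← orbit_eq h, orbit_eq h1]
    exact mem_orbit_self mu
  · intro h
    have h1 : act u v mu ∈ orbit mu := ⟨u, v, rfl⟩
    rw [orbit_eq h] at h1
    exact h1

/-- acting is a permutation of the dual space -/
def actEquiv (u v : UT n F) : Module.Dual F (NT n F) ≃ Module.Dual F (NT n F) where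
  toFun := act u v
  invFun := act u⁻¹ v⁻¹
  left_inv mu := by rw [act_act]; simp [act_one]
  right_inv mu := by rw [act_act]; simp [act_one]

theorem det_eq_one {y : Matrix (Fin n) (Fin n) F} (hy : y ∈ NT n F) : (1 + y).det = 1 := by
  rw [Matrix.det_of_isUpperTriangular]
  · refine Finset.prod_eq_one fun i _ => ?_
    rw [Matrix.add_apply, Matrix.one_apply_eq, hy i i le_rfl, add_zero]
  · intro i j hij
    have hij' : j < i := hij
    rw [Matrix.add_apply, Matrix.one_apply_ne hij'.ne', hy i j hij'.le, add_zero]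

/-- the bijection `g ↦ g - 1` -/
noncomputable def subOneEquiv : UT n F ≃ NT n F where
  toFun := subOne
  invFun y := ⟨Matrix.GeneralLinearGroup.mk'' (1 + (y : Matrix (Fin n) (Fin n) F))
      (by rw [det_eq_one y.2]; exact isUnit_one), by
    refine ⟨fun i => ?_, fun i j hij => ?_⟩
    · change (1 + (y : Matrix (Fin n) (Fin n) F)) i i = 1
      rw [Matrix.add_apply, Matrix.one_apply_eq, y.2 i i le_rfl, add_zero]
    · change (1 + (y : Matrix (Fin n) (Fin n) F)) i j = 0
      rw [Matrix.add_apply, Matrix.one_apply_ne hij.ne', y.2 i j hij.le, add_zero]⟩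
  left_inv g := by
    apply Subtype.ext
    apply Units.ext
    change 1 + (((g : GL (Fin n) F) : Matrix (Fin n) (Fin n) F) - 1) = _
    abel
  right_inv y := by
    apply Subtype.ext
    change (1 + (y : Matrix (Fin n) (Fin n) F)) - 1 = _
    abel

theorem subOneEquiv_apply (g : UT n F) : subOneEquiv g = subOne g := rfl

theorem subOne_one : subOne (1 : UT n F) = 0 := by
  apply Subtype.ext
  simp [subOne]

theorem subOne_eq_zero {g : UT n F} : subOne g = 0 ↔ g = 1 := by
  rw [← subOne_one, ← subOneEquiv_apply, ← subOneEquiv_apply]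
  exact subOneEquiv.injective.eq_iff

/-- `u (g - 1) u⁻¹ = u g u⁻¹ - 1` -/
theorem subOne_conj (u g : UT n F) : subOne (u * g * u⁻¹) = twoSided u u⁻¹ (subOne g) := by
  apply Subtype.ext
  rw [twoSided_coe]
  simp only [subOne, Subgroup.coe_mul, Matrix.GeneralLinearGroup.coe_mul, mul_sub, sub_mul, mul_one]
  congr 1
  rw [← Matrix.GeneralLinearGroup.coe_mul, ← Subgroup.coe_mul, mul_inv_cancel]
  simp

/-- `g h⁻¹ - 1 = ((g - 1) - (h - 1)) h⁻¹` -/
theorem subOne_div (g h : UT n F) :
    subOne (g * h⁻¹) = twoSided 1 h⁻¹ (subOne g - subOne h) := by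
  apply Subtype.ext
  rw [twoSided_coe]
  have h1 : ((h : GL (Fin n) F) : Matrix (Fin n) (Fin n) F) *
      ((h⁻¹ : UT n F) : GL (Fin n) F) = 1 := by
    rw [← Matrix.GeneralLinearGroup.coe_mul, ← Subgroup.coe_mul, mul_inv_cancel]
    simp
  simp only [subOne, Subgroup.coe_mul, Matrix.GeneralLinearGroup.coe_mul, Submodule.coe_sub,
    sub_sub_sub_cancel_right, sub_mul, h1, Subgroup.coe_one, Matrix.GeneralLinearGroup.coe_one,
    one_mul]

section fin

variable [Fintype F]

noncomputable instance : Fintype (UT n F) := Fintype.ofFinite _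

noncomputable instance : Fintype (NT n F) := Fintype.ofFinite _

instance : Finite (Module.Dual F (NT n F)) := Module.finite_of_finite F

noncomputable instance : Fintype (Module.Dual F (NT n F)) := Fintype.ofFinite _

theorem card_dual : Fintype.card (Module.Dual F (NT n F)) = Fintype.card (UT n F) := by
  rw [Fintype.card_congr (subOneEquiv (n := n) (F := F)),
    Module.card_eq_pow_finrank (K := F) (V := NT n F),
    Module.card_eq_pow_finrank (K := F) (V := Module.Dual F (NT n F)), Subspace.dual_finrank_eq]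

/-- scaling a nonzero value makes a nontrivial additive character nontrivial -/
theorem exists_ne {θ : AddChar F ℂ} (hθ : θ ≠ 1) {c : F} (hc : c ≠ 0) : ∃ t : F, θ (t * c) ≠ 1 := by
  obtain ⟨x, hx⟩ := (AddChar.ne_one_iff).1 hθ
  exact ⟨x / c, by rwa [div_mul_cancel₀ x hc]⟩

theorem sum_dual {θ : AddChar F ℂ} (hθ : θ ≠ 1) (y : NT n F) :
    ∑ mu : Module.Dual F (NT n F), θ (mu y) =
      if y = 0 then (Fintype.card (UT n F) : ℂ) else 0 := by
  have h := AddChar.sum_eq_ite (θ.compAddMonoidHom
    (LinearMap.applyₗ y : Module.Dual F (NT n F) →ₗ[F] F).toAddMonoidHom)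
  have h1 : ∀ mu : Module.Dual F (NT n F), (θ.compAddMonoidHom
    (LinearMap.applyₗ y : Module.Dual F (NT n F) →ₗ[F] F).toAddMonoidHom) mu = θ (mu y) := by
    intro mu
    simp
  simp_rw [h1] at h
  rw [h]
  by_cases hy : y = 0
  · rw [if_pos hy, if_pos, card_dual]
    ext mu
    rw [h1, hy, map_zero]
    simp
  · rw [if_neg hy, if_neg]
    intro h2
    apply hy
    rw [← Module.forall_dual_apply_eq_zero_iff F]
    intro mu
    by_contra hmu
    obtain ⟨t, ht⟩ := exists_ne hθ hmu
    apply ht
    have h3 := DFunLike.congr_fun h2 (t • mu)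
    rw [h1] at h3
    simpa using h3

theorem sum_NT {θ : AddChar F ℂ} (hθ : θ ≠ 1) (mu : Module.Dual F (NT n F)) :
    ∑ g : UT n F, θ (mu (subOne g)) =
      if mu = 0 then (Fintype.card (UT n F) : ℂ) else 0 := by
  have h0 : ∑ g : UT n F, θ (mu (subOne g)) = ∑ y : NT n F, θ (mu y) :=
    Fintype.sum_equiv subOneEquiv _ _ fun g => rfl
  rw [h0]
  have h := AddChar.sum_eq_ite (θ.compAddMonoidHom mu.toAddMonoidHom)
  have h1 : ∀ y : NT n F, (θ.compAddMonoidHom mu.toAddMonoidHom) y = θ (mu y) := by
    intro mu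
    simp
  simp_rw [h1] at h
  rw [h]
  by_cases hy : mu = 0
  · rw [if_pos hy, if_pos, Fintype.card_congr (subOneEquiv (n := n) (F := F))]
    ext y
    rw [h1, hy]
    simp
  · rw [if_neg hy, if_neg]
    intro h2
    apply hy
    ext y
    rw [LinearMap.zero_apply]
    by_contra hmu
    obtain ⟨t, ht⟩ := exists_ne hθ hmu
    apply ht
    have h3 := DFunLike.congr_fun h2 (t • y)
    rw [h1] at h3
    simpa using h3

end fin

end Pool.Agent.H91R2.SC
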