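import Pool.Agent.H91R2.SC.Defs
import Pool.Agent.Helper884.IC.Compl

open scoped BigOperators Classical

namespace Pool.Agent.H91R2.SC

open Pool.Agent.Helper884

set_option linter.unusedSectionVars false

variable {G : Type} [Group G] [Fintype G]

theorem isIrrChar_iff (chi : G → ℂ) : IsIrrChar chi ↔ IC.IsIrrChar chi := Iff.rfl

instance : Finite (Irr G) := (IC.irr_finite (G := G)).to_subtype

noncomputable instance : Fintype (Irr G) := Fintype.ofFinite _

theorem schur_Top {V : Type} [AddCommGroup V] [Module ℂ V] [FiniteDimensional ℂ V]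
    (rho : Representation ℂ G V) [hirr : rho.IsIrreducible] (f : G → ℂ) (hf : IC.IsClass f) :
    ∃ c : ℂ, IC.Top rho f = c • LinearMap.id ∧
      c * rho.character 1 = (Nat.card G : ℂ) * IC.B f rho.character := by
  have hcomm : ∀ (h : G) (v : V), IC.Top rho f (rho h v) = rho h (IC.Top rho f v) := by
    intro h v
    simp only [IC.Top, LinearMap.sum_apply, LinearMap.smul_apply, map_sum, map_smul]
    have : ∀ g : G, rho g⁻¹ (rho h v) = rho h (rho (h⁻¹ * g⁻¹ * h) v) := by
      intro g
      rw [← Module.End.mul_apply, ← Module.End.mul_apply, ← map_mul, ← map_mul]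
      congr 2
      group
    simp_rw [this]
    refine Fintype.sum_equiv (MulAut.conj h⁻¹).toEquiv _ _ ?_
    intro g
    have e1 : (MulAut.conj h⁻¹).toEquiv g = h⁻¹ * g * h := by simp
    rw [e1]
    have h1 : f (h⁻¹ * g * h) = f g := by
      have := hf g h⁻¹
      simpa using this
    rw [h1]
    congr 4
    group
  let T : Representation.IntertwiningMap rho rho :=
    (IC.Top rho f).intertwiningMap_of_isIntertwiningMap rho rho hcomm
  obtain ⟨c, hc⟩ := (Representation.IsIrreducible.algebraMap_intertwiningMap_bijective_of_isAlgClosed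
    (ρ := rho)).2 T
  have hT : IC.Top rho f = c • LinearMap.id := by
    ext v
    have := congrArg (fun S : Representation.IntertwiningMap rho rho => S v) hc
    have h2 : T v = IC.Top rho f v := rfl
    rw [← h2]
    exact this.symm
  refine ⟨c, hT, ?_⟩
  have htr : LinearMap.trace ℂ V (IC.Top rho f) = ∑ g : G, f g * rho.character g⁻¹ := by
    simp [IC.Top, Representation.character]
  rw [hT] at htr
  simp only [map_smul, LinearMap.trace_id, smul_eq_mul] at htr
  have h1 : rho.character 1 = (Module.finrank ℂ V : ℂ) := by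
    simp [Representation.character]
  rw [h1, htr, IC.B, mul_inv_cancel_left₀ IC.cardG_ne]

theorem Top_conv {V : Type} [AddCommGroup V] [Module ℂ V]
    (rho : Representation ℂ G V) (f h : G → ℂ) (hf : IC.IsClass f) :
    IC.Top rho (fun g => ∑ b, f (g * b⁻¹) * h b) = IC.Top rho f * IC.Top rho h := by
  unfold IC.Top
  rw [Finset.sum_mul_sum, Finset.sum_comm]
  simp_rw [Finset.sum_smul]
  rw [Finset.sum_comm]
  refine Finset.sum_congr rfl fun b _ => ?_
  refine Fintype.sum_equiv (Equiv.mulLeft b⁻¹) _ _ fun g => ?_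
  have e1 : (Equiv.mulLeft b⁻¹) g = b⁻¹ * g := rfl
  rw [e1, smul_mul_smul_comm, ← map_mul]
  have h1 : f (b⁻¹ * g) = f (g * b⁻¹) := by
    have := hf (b⁻¹ * g) b
    rw [← this]
    congr 1
    group
  rw [h1]
  congr 2
  group

theorem B_conv {chi : G → ℂ} (hchi : IsIrrChar chi) (f h : G → ℂ) (hf : IC.IsClass f)
    (hh : IC.IsClass h) :
    IC.B (fun g => ∑ b, f (g * b⁻¹) * h b) chi * chi 1 =
      (Nat.card G : ℂ) * (IC.B f chi * IC.B h chi) := by
  obtain ⟨V, _, _, _, rho, hr, rfl⟩ := hchi
  obtain ⟨c, hc1, hc2⟩ := schur_Top rho f hf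
  obtain ⟨d, hd1, hd2⟩ := schur_Top rho h hh
  have h1 : LinearMap.trace ℂ V (IC.Top rho (fun g => ∑ b, f (g * b⁻¹) * h b)) =
      (Nat.card G : ℂ) * IC.B (fun g => ∑ b, f (g * b⁻¹) * h b) rho.character := by
    rw [IC.B, mul_inv_cancel_left₀ IC.cardG_ne]
    simp [IC.Top, Representation.character]
  rw [Top_conv rho f h hf, hc1, hd1] at h1
  have h2 : (c • LinearMap.id : V →ₗ[ℂ] V) * (d • LinearMap.id : V →ₗ[ℂ] V) =
      (c * d) • LinearMap.id := by
    ext v
    simp [mul_smul, smul_comm d c v]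
  rw [h2, map_smul, LinearMap.trace_id, smul_eq_mul] at h1
  have h3 : rho.character 1 = (Module.finrank ℂ V : ℂ) := by
    simp [Representation.character]
  rw [← h3] at h1
  have hG := IC.cardG_ne (G := G)
  have h4 : (Nat.card G : ℂ) * (IC.B (fun g => ∑ b, f (g * b⁻¹) * h b) rho.character *
      rho.character 1) = (Nat.card G : ℂ) * ((Nat.card G : ℂ) *
        (IC.B f rho.character * IC.B h rho.character)) := by
    rw [← mul_assoc, ← h1]
    calc c * d * rho.character 1 * rho.character 1
        = (c * rho.character 1) * (d * rho.character 1) := by ring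
      _ = _ := by rw [hc2, hd2]; ring
  exact mul_left_cancel₀ hG h4

theorem irr_one_pos {chi : G → ℂ} (hchi : IsIrrChar chi) : ∃ r : ℝ, 0 < r ∧ chi 1 = r := by
  obtain ⟨V, _, _, _, rho, hirr, rfl⟩ := hchi
  have : Nontrivial V := by
    by_contra hn
    rw [not_nontrivial_iff_subsingleton] at hn
    have : Subsingleton (Subrepresentation rho) := by
      constructor
      intro a b
      ext x
      have : x = 0 := Subsingleton.elim _ _
      subst this
      simp
    have h5 := hirr.toNontrivial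
    exact not_subsingleton (Subrepresentation rho) this
  refine ⟨(Module.finrank ℂ V : ℝ), by exact_mod_cast (Module.finrank_pos (R := ℂ) (M := V)), ?_⟩
  simp [Representation.character]

theorem irr_one_ne {chi : G → ℂ} (hchi : IsIrrChar chi) : chi 1 ≠ 0 := by
  obtain ⟨r, hr, h⟩ := irr_one_pos hchi
  rw [h]
  exact_mod_cast hr.ne'

/-- `σ_X` as a finite sum -/
theorem sigma_eq (S : Set (Irr G)) (g : G) :
    sigma S g = ∑ psi : Irr G, if psi ∈ S then psi.1 1 * psi.1 g else 0 := by
  unfold sigma
  rw [finsum_mem_def, finsum_eq_sum_of_fintype]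
  refine Finset.sum_congr rfl fun mu _ => ?_
  rw [Set.indicator_apply]

theorem sum_Irr (f : (G → ℂ) → ℂ) : ∑ chi ∈ IC.Irr G, f chi = ∑ psi : Irr G, f psi.1 := by
  rw [← Finset.sum_coe_sort]
  refine Fintype.sum_equiv
    { toFun := fun x => (⟨x.1, IC.mem_Irr.1 x.2⟩ : Irr G), invFun := fun x => ⟨x.1, IC.mem_Irr.2 x.2⟩
      left_inv := fun x => rfl
      right_inv := fun x => rfl } _ _ fun x => rfl

theorem expand' (f : G → ℂ) (hf : IC.IsClass f) (g : G) :
    f g = ∑ psi : Irr G, IC.B f psi.1 * psi.1 g := by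
  conv_lhs => rw [IC.expand f hf]
  rw [Finset.sum_apply]
  simp only [Pi.smul_apply, smul_eq_mul]
  exact sum_Irr (fun chi => IC.B f chi * chi g)

theorem B_irr' (psi phi : Irr G) : IC.B psi.1 phi.1 = if psi = phi then 1 else 0 := by
  rw [IC.B_irr psi.2 phi.2]
  by_cases h : psi = phi
  · rw [if_pos h, if_pos (by rw [h])]
  · rw [if_neg h, if_neg (fun h' => h (Subtype.ext h'))]

theorem B_sum (c : Irr G → ℂ) (phi : Irr G) :
    IC.B (fun g => ∑ psi : Irr G, c psi * psi.1 g) phi.1 = c phi := by
  have h1 : (fun g => ∑ psi : Irr G, c psi * psi.1 g) = ∑ psi : Irr G, c psi • psi.1 := by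
    funext g
    simp
  rw [h1, IC.B_sum_left]
  simp only [IC.B_smul_left, B_irr']
  simp

theorem B_sigma (S : Set (Irr G)) (phi : Irr G) :
    IC.B (sigma S) phi.1 = if phi ∈ S then phi.1 1 else 0 := by
  have h1 : sigma S = fun g => ∑ psi : Irr G, (if psi ∈ S then psi.1 1 else 0) * psi.1 g := by
    funext g
    rw [sigma_eq]
    refine Finset.sum_congr rfl fun psi _ => ?_
    split_ifs
    · rfl
    · rw [zero_mul]
  rw [h1, B_sum]

/-- in a supercharacter theory the functions constant on superclasses are combinations of the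
supercharacters -/
theorem SupercharTheory.span (T : SupercharTheory G) (f : G → ℂ)
    (hf : ∀ B ∈ T.K, ∀ g ∈ B, ∀ h ∈ B, f g = f h) :
    ∃ c : Set (Irr G) → ℂ, ∀ S ∈ T.X, ∀ psi ∈ S, IC.B f psi.1 = c S * psi.1 1 := by
  have : Finite T.K := Set.toFinite _
  have : Finite T.X := Set.toFinite _
  let _ : Fintype T.K := Fintype.ofFinite _
  let _ : Fintype T.X := Fintype.ofFinite _
  -- block representatives
  have hne : ∀ B : T.K, ∃ g : G, g ∈ B.1 := by
    intro B
    have h1 := T.isPartition_K.1
    by_contra hcon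
    push Not at hcon
    apply h1
    have : B.1 = ∅ := Set.eq_empty_iff_forall_notMem.2 hcon
    rw [← this]
    exact B.2
  choose rep hrep using hne
  have hcov : ∀ g : G, ∃ B : T.K, g ∈ B.1 := by
    intro g
    obtain ⟨B, ⟨hB, hg⟩, _⟩ := T.isPartition_K.2 g
    exact ⟨⟨B, hB⟩, hg⟩
  let Φ : (T.X → ℂ) →ₗ[ℂ] (T.K → ℂ) :=
    { toFun := fun c B => ∑ S : T.X, c S * sigma S.1 (rep B)
      map_add' := fun a b => by
        funext B
        simp [add_mul, Finset.sum_add_distrib]
      map_smul' := fun a b => by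
        funext B
        simp [Finset.mul_sum, mul_assoc] }
  have hB : ∀ c : T.X → ℂ, ∀ S : T.X, ∀ psi ∈ S.1,
      IC.B (fun g => ∑ R : T.X, c R * sigma R.1 g) psi.1 = c S * psi.1 1 := by
    intro c S psi hpsi
    have h1 : (fun g => ∑ R : T.X, c R * sigma R.1 g) = ∑ R : T.X, c R • sigma R.1 := by
      funext g
      simp
    rw [h1, IC.B_sum_left]
    simp only [IC.B_smul_left, B_sigma]
    rw [Finset.sum_eq_single S]
    · rw [if_pos hpsi]
    · intro R _ hR
      rw [if_neg, mul_zero]
      intro h2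
      apply hR
      apply Subtype.ext
      exact (T.isPartition_X.2 psi).unique ⟨R.2, h2⟩ ⟨S.2, hpsi⟩
    · intro h
      exact absurd (Finset.mem_univ _) h
  have hinj : Function.Injective Φ := by
    rw [injective_iff_map_eq_zero]
    intro c hc
    have h1 : (fun g => ∑ R : T.X, c R * sigma R.1 g) = 0 := by
      funext g
      obtain ⟨B, hgB⟩ := hcov g
      have h2 := congrFun hc B
      change ∑ R : T.X, c R * sigma R.1 (rep B) = 0 at h2
      rw [Pi.zero_apply, ← h2]
      refine Finset.sum_congr rfl fun R _ => ?_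
      rw [T.const R.1 R.2 B.1 B.2 g hgB (rep B) (hrep B)]
    funext S
    have hne : ∃ psi, psi ∈ S.1 := by
      by_contra hcon
      push Not at hcon
      have : S.1 = ∅ := Set.eq_empty_iff_forall_notMem.2 hcon
      apply T.isPartition_X.1
      rw [← this]
      exact S.2
    obtain ⟨psi, hpsi⟩ := hne
    have h3 := hB c S psi hpsi
    rw [h1] at h3
    have h4 : IC.B (0 : G → ℂ) psi.1 = 0 := by simp [IC.B]
    rw [h4] at h3
    rcases mul_eq_zero.1 h3.symm with h5 | h5
    · exact h5
    · exact absurd h5 (irr_one_ne psi.2)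
  have hsurj : Function.Surjective Φ := by
    rw [← LinearMap.injective_iff_surjective_of_finrank_eq_finrank]
    · exact hinj
    · rw [Module.finrank_fintype_fun_eq_card, Module.finrank_fintype_fun_eq_card]
      obtain ⟨e⟩ := T.card_eq
      exact Fintype.card_congr e
  obtain ⟨c, hc⟩ := hsurj (fun B => f (rep B))
  have hfc : f = fun g => ∑ R : T.X, c R * sigma R.1 g := by
    funext g
    obtain ⟨B, hgB⟩ := hcov g
    have h2 := congrFun hc B
    change ∑ R : T.X, c R * sigma R.1 (rep B) = f (rep B) at h2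
    rw [hf B.1 B.2 g hgB (rep B) (hrep B), ← h2]
    refine Finset.sum_congr rfl fun R _ => ?_
    rw [T.const R.1 R.2 B.1 B.2 g hgB (rep B) (hrep B)]
  refine ⟨fun S => if h : S ∈ T.X then c ⟨S, h⟩ else 0, fun S hS psi hpsi => ?_⟩
  have h1 := hB c ⟨S, hS⟩ psi hpsi
  rw [← hfc] at h1
  rw [h1]
  simp only [dif_pos hS]

end Pool.Agent.H91R2.SC
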