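import Pool.Agent.H91R2.SC.Prod
import Pool.Agent.H91R2.SC.Chars

open scoped BigOperators MatrixGroups Classical Matrix

namespace Pool.Agent.H91R2.SC

set_option linter.unusedSectionVars false

variable {n : ℕ} {F : Type} [Field F]

/-- the orbit of a single box is a single conjugation orbit -/
theorem box_conj (i j : Fin n) (_hij : i < j) (a : F) (mu : Module.Dual F (NT n F))
    (hmu : mu ∈ orbit (box i j a)) : ∃ w : UT n F, mu = act w w⁻¹ (box i j a) := by
  obtain ⟨u, v, rfl⟩ := hmu
  let r : Fin n → F := fun k => if i < k ∧ k < j then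
    ((u : GL (Fin n) F) : Matrix (Fin n) (Fin n) F) i k else 0
  let c : Fin n → F := fun l => if i < l ∧ l < j then
    ((v : GL (Fin n) F) : Matrix (Fin n) (Fin n) F) l j else 0
  let A : Matrix (Fin n) (Fin n) F := Matrix.vecMulVec (Pi.single i 1) r
  let C : Matrix (Fin n) (Fin n) F := Matrix.vecMulVec c (Pi.single j 1)
  have hri : ∀ k, k ≤ i → r k = 0 := by
    intro k hk
    simp only [r]
    rw [if_neg]
    rintro ⟨h, _⟩
    exact absurd hk (not_le.2 h)
  have hrj : ∀ k, j ≤ k → r k = 0 := by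
    intro k hk
    simp only [r]
    rw [if_neg]
    rintro ⟨_, h⟩
    exact absurd hk (not_le.2 h)
  have hci : ∀ k, k ≤ i → c k = 0 := by
    intro k hk
    simp only [c]
    rw [if_neg]
    rintro ⟨h, _⟩
    exact absurd hk (not_le.2 h)
  have hcj : ∀ k, j ≤ k → c k = 0 := by
    intro k hk
    simp only [c]
    rw [if_neg]
    rintro ⟨_, h⟩
    exact absurd hk (not_le.2 h)
  have hA : A ∈ NT n F := by
    intro k l hkl
    simp only [A, Matrix.vecMulVec_apply, Pi.single_apply]
    split_ifs with h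
    · rw [hri l (by rw [← h]; exact hkl), mul_zero]
    · rw [zero_mul]
  have hC : C ∈ NT n F := by
    intro k l hkl
    simp only [C, Matrix.vecMulVec_apply, Pi.single_apply]
    split_ifs with h
    · rw [hcj k (by rw [← h]; exact hkl), zero_mul]
    · rw [mul_zero]
  have hAA : A * A = 0 := by
    simp only [A]
    rw [Matrix.vecMulVec_mul_vecMulVec]
    have : r ⬝ᵥ (Pi.single i 1 : Fin n → F) = 0 := by
      rw [dotProduct_single, hri i le_rfl, zero_mul]
    rw [this]
    simp
  have hCC : C * C = 0 := by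
    simp only [C]
    rw [Matrix.vecMulVec_mul_vecMulVec]
    have : (Pi.single j 1 : Fin n → F) ⬝ᵥ c = 0 := by
      rw [single_dotProduct, hcj j le_rfl, mul_zero]
    rw [this]
    simp
  let w1 : UT n F := subOneEquiv.symm ⟨A, hA⟩
  let w2 : UT n F := subOneEquiv.symm ⟨C, hC⟩
  have hw1 : ((w1 : GL (Fin n) F) : Matrix (Fin n) (Fin n) F) = 1 + A := mk_coe _
  have hw2 : ((w2 : GL (Fin n) F) : Matrix (Fin n) (Fin n) F) = 1 + C := mk_coe _
  have hinv : ∀ (w : UT n F) (E : Matrix (Fin n) (Fin n) F), E * E = 0 →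
      ((w : GL (Fin n) F) : Matrix (Fin n) (Fin n) F) = 1 + E →
      (((w⁻¹ : UT n F) : GL (Fin n) F) : Matrix (Fin n) (Fin n) F) = 1 - E := by
    intro w E hE hw
    have h1 : ((w : GL (Fin n) F) : Matrix (Fin n) (Fin n) F) *
        (((w⁻¹ : UT n F) : GL (Fin n) F) : Matrix (Fin n) (Fin n) F) = 1 := by
      rw [← Matrix.GeneralLinearGroup.coe_mul, ← Subgroup.coe_mul, mul_inv_cancel]
      simp
    have h2 : (1 - E) * ((w : GL (Fin n) F) : Matrix (Fin n) (Fin n) F) = 1 := by
      rw [hw]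
      noncomm_ring
      rw [hE]
      simp
    calc (((w⁻¹ : UT n F) : GL (Fin n) F) : Matrix (Fin n) (Fin n) F)
        = (1 - E) * ((w : GL (Fin n) F) : Matrix (Fin n) (Fin n) F) *
          (((w⁻¹ : UT n F) : GL (Fin n) F) : Matrix (Fin n) (Fin n) F) := by rw [h2, one_mul]
      _ = 1 - E := by rw [mul_assoc, h1, mul_one]
  have hw1i := hinv w1 A hAA hw1
  have hw2i := hinv w2 C hCC hw2
  refine ⟨w1 * w2⁻¹, ?_⟩
  ext y
  rw [act_apply, act_apply]
  change a * (twoSided u v y : Matrix (Fin n) (Fin n) F) i j =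
    a * (twoSided (w1 * w2⁻¹) (w1 * w2⁻¹)⁻¹ y : Matrix (Fin n) (Fin n) F) i j
  congr 1
  rw [twoSided_entry, twoSided_entry]
  have hrow : ∀ k, (((w1 * w2⁻¹ : UT n F) : GL (Fin n) F) : Matrix (Fin n) (Fin n) F) i k =
      (if k = i then 1 else 0) + r k -
        (((Pi.single i 1 : Fin n → F) + r) ⬝ᵥ c) * (if k = j then 1 else 0) := by
    intro k
    rw [Subgroup.coe_mul, Matrix.GeneralLinearGroup.coe_mul, hw1, hw2i]
    have e1 : ((1 + A) * (1 - C)) i k = ((Pi.single i 1 : Fin n → F) ᵥ* ((1 + A) * (1 - C))) k := by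
      rw [Matrix.single_one_vecMul]
      rfl
    rw [e1, ← Matrix.vecMul_vecMul]
    have e2 : (Pi.single i 1 : Fin n → F) ᵥ* (1 + A) = Pi.single i 1 + r := by
      rw [Matrix.vecMul_add, Matrix.vecMul_one]
      congr 1
      simp only [A]
      rw [Matrix.vecMul_vecMulVec]
      simp
    rw [e2, Matrix.vecMul_sub, Matrix.vecMul_one]
    simp only [C]
    rw [Matrix.vecMul_vecMulVec]
    simp only [Pi.sub_apply, Pi.add_apply, Pi.smul_apply, Pi.single_apply, smul_eq_mul]
  have hcol : ∀ l, ((((w1 * w2⁻¹)⁻¹ : UT n F) : GL (Fin n) F) : Matrix (Fin n) (Fin n) F) l j =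
      (if l = j then 1 else 0) + c l := by
    intro l
    rw [mul_inv_rev, inv_inv, Subgroup.coe_mul, Matrix.GeneralLinearGroup.coe_mul, hw2, hw1i]
    have e1 : ((1 + C) * (1 - A)) l j = (((1 + C) * (1 - A)) *ᵥ (Pi.single j 1 : Fin n → F)) l := by
      rw [Matrix.mulVec_single_one]
      rfl
    rw [e1, ← Matrix.mulVec_mulVec]
    have e2 : (1 - A) *ᵥ (Pi.single j 1 : Fin n → F) = Pi.single j 1 := by
      rw [Matrix.sub_mulVec, Matrix.one_mulVec]
      simp only [A]
      rw [Matrix.vecMulVec_mulVec]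
      have : r ⬝ᵥ (Pi.single j 1 : Fin n → F) = 0 := by
        rw [dotProduct_single, hrj j le_rfl, zero_mul]
      rw [this]
      simp
    rw [e2, Matrix.add_mulVec, Matrix.one_mulVec]
    simp only [C]
    rw [Matrix.vecMulVec_mulVec]
    simp [Pi.single_apply]
  refine Finset.sum_congr rfl fun l _ => Finset.sum_congr rfl fun k _ => ?_
  rw [hrow, hcol]
  by_cases hkl : k < l
  · rcases lt_trichotomy l j with hl | hl | hl
    · -- k < l < j
      have hkj : k ≠ j := (hkl.trans hl).ne
      rw [if_neg hkj, mul_zero, sub_zero, if_neg hl.ne, zero_add]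
      rcases lt_trichotomy k i with hk | hk | hk
      · rw [u.2.2 i k hk, if_neg hk.ne, hri k hk.le]
        ring
      · rw [hk, u.2.1 i, if_pos rfl, hri i le_rfl]
        simp only [c]
        rw [if_pos ⟨by rw [← hk]; exact hkl, hl⟩]
        ring
      · rw [if_neg hk.ne']
        simp only [c, r]
        rw [if_pos ⟨hk, hkl.trans hl⟩, if_pos ⟨hk.trans hkl, hl⟩]
        ring
    · -- l = j
      have hkj : k ≠ j := by rw [← hl]; exact hkl.ne
      rw [if_neg hkj, mul_zero, sub_zero, if_pos hl, hcj l hl.ge, hl, v.2.1 j]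
      rcases lt_trichotomy k i with hk | hk | hk
      · rw [u.2.2 i k hk, if_neg hk.ne, hri k hk.le]
        ring
      · rw [hk, u.2.1 i, if_pos rfl, hri i le_rfl]
        ring
      · rw [if_neg hk.ne']
        simp only [r]
        rw [if_pos ⟨hk, by rw [← hl]; exact hkl⟩]
        ring
    · rw [v.2.2 l j hl, if_neg hl.ne', hcj l hl.le]
      ring
  · rw [y.2 k l (not_lt.1 hkl)]
    ring

section fin

variable [Fintype F]

theorem isClass_orbitSum (θ : AddChar F ℂ) (lam : Module.Dual F (NT n F)) :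
    Helper884.IC.IsClass (orbitSum θ lam) := fun g u => orbitSum_conj θ lam g u

open Helper884 in
/-- an irreducible character meeting the orbit sum of a functional: Fourier expansion -/
theorem irr_expand {θ : AddChar F ℂ} (lam : Module.Dual F (NT n F)) (chi : Irr (UT n F))
    (hchi : IC.B (orbitSum θ lam) chi.1 = chi.1 1) (g : UT n F) :
    (Fintype.card (UT n F) : ℂ) * chi.1 g = ∑ mu : Module.Dual F (NT n F),
      if mu ∈ orbit lam then (∑ h : UT n F, chi.1 h * θ (-(mu (subOne h)))) * θ (mu (subOne g))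
      else 0 := by
  have hc : IC.IsClass chi.1 := IC.IsIrrChar.isClass chi.2
  have h1 : ∀ psi : Irr (UT n F),
      IC.B (fun g => ∑ b, orbitSum θ lam (g * b⁻¹) * chi.1 b) psi.1 =
        if chi = psi then (Nat.card (UT n F) : ℂ) else 0 := by
    intro psi
    have h2 := B_conv psi.2 (orbitSum θ lam) chi.1 (isClass_orbitSum θ lam) hc
    rw [B_irr'] at h2
    have h3 := irr_one_ne psi.2
    by_cases h : chi = psi
    · rw [if_pos h]
      rw [if_pos h, mul_one, ← h, hchi] at h2
      rw [← h] at h3 ⊢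
      exact mul_right_cancel₀ h3 h2
    · rw [if_neg h]
      rw [if_neg h, mul_zero, mul_zero] at h2
      rcases mul_eq_zero.1 h2 with h4 | h4
      · exact h4
      · exact absurd h4 h3
  have hcl : IC.IsClass (fun g => ∑ b, orbitSum θ lam (g * b⁻¹) * chi.1 b) := by
    intro g y
    change ∑ b, orbitSum θ lam (y * g * y⁻¹ * b⁻¹) * chi.1 b = ∑ b, orbitSum θ lam (g * b⁻¹) * chi.1 b
    refine (Fintype.sum_equiv (MulAut.conj y).toEquiv _ _ fun b => ?_).symm
    have e1 : (MulAut.conj y).toEquiv b = y * b * y⁻¹ := by simp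
    rw [e1, hc b y, ← orbitSum_conj θ lam (g * b⁻¹) y]
    congr 2
    group
  have h2 := expand' _ hcl g
  simp_rw [h1] at h2
  simp only [ite_mul, zero_mul, Finset.sum_ite_eq, Finset.mem_univ, if_true] at h2
  rw [← Nat.card_eq_fintype_card, ← h2]
  have h3 : ∀ b : UT n F, orbitSum θ lam (g * b⁻¹) * chi.1 b =
      ∑ mu : Module.Dual F (NT n F), if mu ∈ orbit lam then
        chi.1 b * θ (-(mu (subOne b))) * θ (mu (subOne g)) else 0 := by
    intro b
    rw [orbitSum_eq, subOne_div, os_twoSided]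
    unfold os
    rw [Finset.sum_mul]
    refine Finset.sum_congr rfl fun mu _ => ?_
    split_ifs
    · rw [map_sub, sub_eq_add_neg, AddChar.map_add_eq_mul]
      ring
    · rw [zero_mul]
  simp_rw [h3]
  rw [Finset.sum_comm]
  refine Finset.sum_congr rfl fun mu _ => ?_
  split_ifs
  · rw [Finset.sum_mul]
  · simp

open Helper884 in
/-- the single box characters -/
theorem box_multiple {θ : AddChar F ℂ} (i j : Fin n) (hij : i < j) (a : F) (chi : Irr (UT n F))
    (hchi : IC.B (orbitSum θ (box i j a)) chi.1 = chi.1 1) :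
    PosMultiple chi.1 (orbitSum θ (box i j a)) := by
  have hc : IC.IsClass chi.1 := IC.IsIrrChar.isClass chi.2
  set c0 : ℂ := ∑ h : UT n F, chi.1 h * θ (-(box i j a (subOne h))) with hc0
  have h1 : ∀ g, (Fintype.card (UT n F) : ℂ) * chi.1 g = c0 * orbitSum θ (box i j a) g := by
    intro g
    rw [irr_expand (box i j a) chi hchi g, orbitSum_eq]
    unfold os
    rw [Finset.mul_sum]
    refine Finset.sum_congr rfl fun mu _ => ?_
    by_cases hmu : mu ∈ orbit (box i j a)
    · rw [if_pos hmu, if_pos hmu]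
      congr 1
      obtain ⟨w, rfl⟩ := box_conj i j hij a mu hmu
      rw [hc0]
      refine Fintype.sum_equiv (MulAut.conj w).toEquiv _ _ fun b => ?_
      have e1 : (MulAut.conj w).toEquiv b = w * b * w⁻¹ := by simp
      rw [e1, hc b w, subOne_conj, act_apply]
    · rw [if_neg hmu, if_neg hmu, mul_zero]
  have hU : (Fintype.card (UT n F) : ℂ) ≠ 0 := by exact_mod_cast Fintype.card_ne_zero
  obtain ⟨d, hd, hd'⟩ := irr_one_pos chi.2
  obtain ⟨s, hs, hs'⟩ := osize_pos (box i j a)
  have h2 := h1 1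
  rw [orbitSum_eq, subOne_one, os_zero, hd', hs'] at h2
  have hs0 : (s : ℂ) ≠ 0 := by exact_mod_cast hs.ne'
  refine ⟨d / s, div_pos hd hs, fun g => ?_⟩
  have h3 : c0 = (Fintype.card (UT n F) : ℂ) * d / s := by
    rw [h2]
    field_simp
  have h4 := h1 g
  rw [h3] at h4
  apply mul_left_cancel₀ hU
  rw [h4]
  push_cast
  ring

end fin

end Pool.Agent.H91R2.SC
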