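import Pool.Agent.H91R2.SC.Orb

open scoped BigOperators MatrixGroups Classical

namespace Pool.Agent.H91R2.SC

set_option linter.unusedSectionVars false

variable {n : ℕ} {F : Type} [Field F]

/-- the action `(u, v) • y = u y v⁻¹` -/
@[reducible] def actN : MulAction (UT n F × UT n F) (NT n F) where
  smul p y := twoSided p.1 p.2⁻¹ y
  one_smul y := by
    change twoSided 1 1⁻¹ y = y
    rw [inv_one, twoSided_one]
  mul_smul p q y := by
    change twoSided (p.1 * q.1) (p.2 * q.2)⁻¹ y = twoSided p.1 p.2⁻¹ (twoSided q.1 q.2⁻¹ y)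
    rw [twoSided_twoSided, mul_inv_rev]

/-- the action `((u, v) • μ) (y) = μ (u⁻¹ y v)` -/
@[reducible] def actD : MulAction (UT n F × UT n F) (Module.Dual F (NT n F)) where
  smul p mu := act p.1⁻¹ p.2 mu
  one_smul y := by
    change act 1⁻¹ 1 y = y
    rw [inv_one, act_one]
  mul_smul p q y := by
    change act (p.1 * q.1)⁻¹ (p.2 * q.2) y = act p.1⁻¹ p.2 (act q.1⁻¹ q.2 y)
    rw [act_act, mul_inv_rev]

section fin

variable [Fintype F]

theorem card_fixed (u v : UT n F) :
    Nat.card {y : NT n F // twoSided u v⁻¹ y = y} =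
      Nat.card {mu : Module.Dual F (NT n F) // act u⁻¹ v mu = mu} := by
  set f : NT n F →ₗ[F] NT n F := twoSided u⁻¹ v - LinearMap.id with hf
  have h1 : Nat.card {y : NT n F // twoSided u v⁻¹ y = y} = Nat.card (LinearMap.ker f) := by
    refine Nat.card_congr (Equiv.subtypeEquivRight fun y => ?_)
    rw [LinearMap.mem_ker, hf, LinearMap.sub_apply, LinearMap.id_apply, sub_eq_zero]
    constructor
    · intro h
      conv_lhs => rw [← h]
      rw [twoSided_twoSided]
      simp [twoSided_one]
    · intro h
      conv_lhs => rw [← h]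
      rw [twoSided_twoSided]
      simp [twoSided_one]
  have h2 : Nat.card {mu : Module.Dual F (NT n F) // act u⁻¹ v mu = mu} =
      Nat.card (LinearMap.ker f.dualMap) := by
    refine Nat.card_congr (Equiv.subtypeEquivRight fun mu => ?_)
    rw [LinearMap.mem_ker, hf]
    have : (twoSided u⁻¹ v - LinearMap.id : NT n F →ₗ[F] NT n F).dualMap mu =
        act u⁻¹ v mu - mu := by
      ext y
      simp [act_apply]
    rw [this, sub_eq_zero]
  rw [h1, h2, Nat.card_eq_fintype_card, Nat.card_eq_fintype_card,
    Module.card_eq_pow_finrank (K := F) (V := LinearMap.ker f),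
    Module.card_eq_pow_finrank (K := F) (V := LinearMap.ker f.dualMap)]
  congr 1
  have e1 := LinearMap.finrank_range_add_finrank_ker f
  have e2 := LinearMap.finrank_range_add_finrank_ker f.dualMap
  rw [LinearMap.finrank_range_dualMap_eq_finrank_range, Subspace.dual_finrank_eq] at e2
  omega

theorem card_range_superclass :
    Nat.card (Set.range (superclass : UT n F → Set (UT n F))) =
      Nat.card (Set.range (orbit : Module.Dual F (NT n F) → Set (Module.Dual F (NT n F)))) := by
  let a1 : MulAction (UT n F × UT n F) (NT n F) := actN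
  let a2 : MulAction (UT n F × UT n F) (Module.Dual F (NT n F)) := actD
  have h1 : Nat.card (Set.range (superclass : UT n F → Set (UT n F))) =
      Nat.card (MulAction.orbitRel.Quotient (UT n F × UT n F) (NT n F)) := by
    let φ : MulAction.orbitRel.Quotient (UT n F × UT n F) (NT n F) →
        Set.range (superclass : UT n F → Set (UT n F)) :=
      Quotient.lift (fun y => ⟨superclass (subOneEquiv.symm y), Set.mem_range_self _⟩) (by
        rintro y z ⟨⟨u, v⟩, h⟩
        change twoSided u v⁻¹ z = y at h
        apply Subtype.ext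
        change superclass (subOneEquiv.symm y) = superclass (subOneEquiv.symm z)
        ext g
        change (∃ p q, subOne g = twoSided p q (subOne (subOneEquiv.symm y))) ↔
          (∃ p q, subOne g = twoSided p q (subOne (subOneEquiv.symm z)))
        rw [← subOneEquiv_apply, ← subOneEquiv_apply, ← subOneEquiv_apply,
          Equiv.apply_symm_apply, Equiv.apply_symm_apply]
        constructor
        · rintro ⟨p, q, hpq⟩
          exact ⟨p * u, v⁻¹ * q, by rw [← twoSided_twoSided, h, hpq]⟩
        · rintro ⟨p, q, hpq⟩
          refine ⟨p * u⁻¹, v * q, ?_⟩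
          rw [← h, twoSided_twoSided, hpq]
          simp [mul_assoc])
    refine (Nat.card_eq_of_bijective φ ⟨?_, ?_⟩).symm
    · intro y z
      induction y using Quotient.inductionOn with | _ y =>
      induction z using Quotient.inductionOn with | _ z =>
      intro h
      have h' : superclass (subOneEquiv.symm y) = superclass (subOneEquiv.symm z) :=
        congrArg Subtype.val h
      have h3 : subOneEquiv.symm y ∈ superclass (subOneEquiv.symm z) := by
        rw [← h']
        exact ⟨1, 1, by rw [twoSided_one]⟩
      obtain ⟨p, q, hpq⟩ := h3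
      rw [← subOneEquiv_apply, ← subOneEquiv_apply, Equiv.apply_symm_apply,
        Equiv.apply_symm_apply] at hpq
      apply Quotient.sound
      refine ⟨(p, q⁻¹), ?_⟩
      change twoSided p q⁻¹⁻¹ z = y
      rw [inv_inv, hpq]
    · rintro ⟨_, g, rfl⟩
      refine ⟨Quotient.mk _ (subOneEquiv g), ?_⟩
      apply Subtype.ext
      change superclass (subOneEquiv.symm (subOneEquiv g)) = _
      rw [Equiv.symm_apply_apply]
  have h2 : Nat.card (Set.range (orbit : Module.Dual F (NT n F) →
      Set (Module.Dual F (NT n F)))) =
      Nat.card (MulAction.orbitRel.Quotient (UT n F × UT n F) (Module.Dual F (NT n F))) := by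
    let φ : MulAction.orbitRel.Quotient (UT n F × UT n F) (Module.Dual F (NT n F)) →
        Set.range (orbit : Module.Dual F (NT n F) → Set (Module.Dual F (NT n F))) :=
      Quotient.lift (fun y => ⟨orbit y, Set.mem_range_self _⟩) (by
        rintro y z ⟨⟨u, v⟩, h⟩
        change act u⁻¹ v z = y at h
        apply Subtype.ext
        exact orbit_eq ⟨u⁻¹, v, h.symm⟩)
    refine (Nat.card_eq_of_bijective φ ⟨?_, ?_⟩).symm
    · intro y z
      induction y using Quotient.inductionOn with | _ y =>
      induction z using Quotient.inductionOn with | _ z =>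
      intro h
      have h' : orbit y = orbit z := congrArg Subtype.val h
      obtain ⟨p, q, hpq⟩ := orbit_eq_iff.1 h'
      apply Quotient.sound
      refine ⟨(p⁻¹, q), ?_⟩
      change act p⁻¹⁻¹ q z = y
      rw [inv_inv, hpq]
    · rintro ⟨_, g, rfl⟩
      exact ⟨Quotient.mk _ g, rfl⟩
  rw [h1, h2, Nat.card_eq_fintype_card, Nat.card_eq_fintype_card]
  have b1 := MulAction.sum_card_fixedBy_eq_card_orbits_mul_card_group (UT n F × UT n F) (NT n F)
  have b2 := MulAction.sum_card_fixedBy_eq_card_orbits_mul_card_group (UT n F × UT n F)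
    (Module.Dual F (NT n F))
  have b3 : ∑ p : UT n F × UT n F, Fintype.card (MulAction.fixedBy (NT n F) p) =
      ∑ p : UT n F × UT n F, Fintype.card (MulAction.fixedBy (Module.Dual F (NT n F)) p) := by
    refine Finset.sum_congr rfl fun p _ => ?_
    rw [← Nat.card_eq_fintype_card, ← Nat.card_eq_fintype_card]
    exact card_fixed p.1 p.2
  rw [b1, b2] at b3
  exact Nat.eq_of_mul_eq_mul_right Fintype.card_pos b3

end fin

end Pool.Agent.H91R2.SC
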