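import Mathlib

/-!
Supercharacter theories of a finite group, the group of unitriangular matrices and the two-sided
orbits used in the definition of its supercharacter theory of André.
-/

open scoped BigOperators MatrixGroups

namespace Pool.Agent.H91R2.SC

/-- `chi` is an irreducible complex character of the group `G` -/
def IsIrrChar {G : Type} [Group G] (chi : G → ℂ) : Prop :=
  ∃ (V : Type) (_ : AddCommGroup V) (_ : Module ℂ V) (_ : FiniteDimensional ℂ V)
    (rho : Representation ℂ G V), rho.IsIrreducible ∧ chi = rho.character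

/-- the set of irreducible complex characters of `G`, as a type -/
abbrev Irr (G : Type) [Group G] : Type := {chi : G → ℂ // IsIrrChar chi}

/-- `σ_X = ∑_{ψ ∈ X} ψ(1) ψ` for a set `X` of irreducible characters -/
noncomputable def sigma {G : Type} [Group G] (X : Set (Irr G)) (g : G) : ℂ :=
  ∑ᶠ psi ∈ X, psi.1 1 * psi.1 g

/-- A supercharacter theory of `G` (Diaconis-Isaacs): a partition `X` of `Irr G` and a partition
`K` of `G` with equally many blocks, such that `{1}` is a block of `K` and each `σ_X` is constant
on each block of `K`. -/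
structure SupercharTheory (G : Type) [Group G] where
  /-- the partition of the irreducible characters -/
  X : Set (Set (Irr G))
  /-- the partition of the group -/
  K : Set (Set G)
  isPartition_X : Setoid.IsPartition X
  isPartition_K : Setoid.IsPartition K
  card_eq : Nonempty (X ≃ K)
  one_mem : {1} ∈ K
  const : ∀ S ∈ X, ∀ B ∈ K, ∀ g ∈ B, ∀ h ∈ B, sigma S g = sigma S h

/-- the theory `A` is coarser than or equal to the theory `T` (both partitions) -/
def CoarserEq {G : Type} [Group G] (A T : SupercharTheory G) : Prop :=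
  (∀ B ∈ T.K, ∃ C ∈ A.K, B ⊆ C) ∧ (∀ S ∈ T.X, ∃ R ∈ A.X, S ⊆ R)

/-- the theory `T` contains the irreducible character `chi`: `{chi}` is a block of `T.X` -/
def Contains {G : Type} [Group G] (T : SupercharTheory G) (chi : Irr G) : Prop :=
  {chi} ∈ T.X

/-- the group `U_n(F)` of upper unitriangular matrices -/
def UT (n : ℕ) (F : Type) [Field F] : Subgroup (GL (Fin n) F) where
  carrier := {g | (∀ i, (g : Matrix (Fin n) (Fin n) F) i i = 1) ∧
    ∀ i j, j < i → (g : Matrix (Fin n) (Fin n) F) i j = 0}
  one_mem' := by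
    refine ⟨fun i => by simp, fun i j h => by simp [h.ne']⟩
  mul_mem' := by
    rintro g h ⟨g1, g2⟩ ⟨h1, h2⟩
    refine ⟨fun i => ?_, fun i j hij => ?_⟩
    · rw [Matrix.GeneralLinearGroup.coe_mul, Matrix.mul_apply, Finset.sum_eq_single i]
      · rw [g1, h1, one_mul]
      · intro k _ hk
        rcases lt_or_gt_of_ne hk with hk | hk
        · rw [g2 _ _ hk, zero_mul]
        · rw [h2 _ _ hk, mul_zero]
      · intro hi
        exact absurd (Finset.mem_univ i) hi
    · rw [Matrix.GeneralLinearGroup.coe_mul, Matrix.mul_apply]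
      refine Finset.sum_eq_zero fun k _ => ?_
      rcases lt_or_ge k i with hk | hk
      · rw [g2 _ _ hk, zero_mul]
      · rw [h2 _ _ (hij.trans_le hk), mul_zero]
  inv_mem' := by
    rintro g ⟨g1, g2⟩
    have hbt : (g : Matrix (Fin n) (Fin n) F).BlockTriangular id := fun i j h => g2 i j h
    have hinv : ((g⁻¹ : GL (Fin n) F) : Matrix (Fin n) (Fin n) F).BlockTriangular id := by
      rw [Matrix.coe_units_inv]
      have : Invertible (g : Matrix (Fin n) (Fin n) F) := Units.invertible g
      exact Matrix.blockTriangular_inv_of_blockTriangular hbt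
    refine ⟨fun i => ?_, fun i j h => hinv h⟩
    have h1 : ((g * g⁻¹ : GL (Fin n) F) : Matrix (Fin n) (Fin n) F) i i = 1 := by
      simp
    rw [Matrix.GeneralLinearGroup.coe_mul, Matrix.mul_apply, Finset.sum_eq_single i] at h1
    · rw [g1, one_mul] at h1
      exact h1
    · intro k _ hk
      rcases lt_or_gt_of_ne hk with hk | hk
      · rw [g2 _ _ hk, zero_mul]
      · rw [hinv hk, mul_zero]
    · intro hi
      exact absurd (Finset.mem_univ i) hi


variable {n : ℕ} {F : Type} [Field F]

/-- the space `𝔫` of strictly upper triangular matrices -/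
def NT (n : ℕ) (F : Type) [Field F] : Submodule F (Matrix (Fin n) (Fin n) F) where
  carrier := {y | ∀ i j, j ≤ i → y i j = 0}
  zero_mem' := fun i j _ => rfl
  add_mem' := by
    intro a b ha hb i j hij
    rw [Matrix.add_apply, ha i j hij, hb i j hij, add_zero]
  smul_mem' := by
    intro c a ha i j hij
    rw [Matrix.smul_apply, ha i j hij, smul_zero]

theorem mul_mem_NT (u v : UT n F) (y : NT n F) :
    ((u : GL (Fin n) F) : Matrix (Fin n) (Fin n) F) * (y : Matrix (Fin n) (Fin n) F) *
      ((v : GL (Fin n) F) : Matrix (Fin n) (Fin n) F) ∈ NT n F := by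
  obtain ⟨u, u1, u2⟩ := u
  obtain ⟨v, v1, v2⟩ := v
  obtain ⟨y, hy⟩ := y
  intro i j hij
  simp only [Matrix.mul_apply]
  refine Finset.sum_eq_zero fun k _ => ?_
  rcases lt_or_ge j k with hk | hk
  · rw [v2 _ _ hk, mul_zero]
  · rw [Finset.sum_eq_zero, zero_mul]
    intro l _
    rcases lt_or_ge l i with hl | hl
    · rw [u2 _ _ hl, zero_mul]
    · rw [hy _ _ ((hk.trans hij).trans hl), mul_zero]

/-- the linear map `y ↦ u y v` of `𝔫`, for `u`, `v` in `U_n(F)` -/
def twoSided (u v : UT n F) : NT n F →ₗ[F] NT n F where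
  toFun y := ⟨((u : GL (Fin n) F) : Matrix (Fin n) (Fin n) F) * (y : Matrix (Fin n) (Fin n) F) *
      ((v : GL (Fin n) F) : Matrix (Fin n) (Fin n) F), mul_mem_NT u v y⟩
  map_add' y z := Subtype.ext (by simp [mul_add, add_mul])
  map_smul' c y := Subtype.ext (by simp)

/-- `g - 1`, for `g` in `U_n(F)` -/
def subOne (g : UT n F) : NT n F :=
  ⟨((g : GL (Fin n) F) : Matrix (Fin n) (Fin n) F) - 1, fun i j hij => by
    rcases hij.lt_or_eq with h | h
    · rw [Matrix.sub_apply, g.2.2 i j h, Matrix.one_apply_ne h.ne', sub_zero]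
    · rw [Matrix.sub_apply, h, g.2.1 i, Matrix.one_apply_eq, sub_self]⟩

/-- the superclass of `x` in André's theory: all `g` with `g - 1 ∈ U (x - 1) U` -/
def superclass (x : UT n F) : Set (UT n F) :=
  {g | ∃ u v : UT n F, subOne g = twoSided u v (subOne x)}

/-- the functional `u μ v`, with `(u μ v) (y) = μ (u y v)` -/
def act (u v : UT n F) (mu : Module.Dual F (NT n F)) : Module.Dual F (NT n F) :=
  mu ∘ₗ twoSided u v

/-- the two-sided orbit `U λ U` -/
def orbit (lam : Module.Dual F (NT n F)) : Set (Module.Dual F (NT n F)) :=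
  {mu | ∃ u v : UT n F, mu = act u v lam}

/-- the function `g ↦ ∑_{μ ∈ U λ U} θ (μ (g - 1))`, a positive multiple of the supercharacter
indexed by the orbit of `λ` -/
noncomputable def orbitSum (θ : AddChar F ℂ) (lam : Module.Dual F (NT n F)) (g : UT n F) : ℂ :=
  ∑ᶠ mu ∈ orbit lam, θ (mu (subOne g))

/-- the functional `y ↦ a y_{ij}` -/
def box (i j : Fin n) (a : F) : Module.Dual F (NT n F) where
  toFun y := a * (y : Matrix (Fin n) (Fin n) F) i j
  map_add' y z := by simp [mul_add]
  map_smul' c y := by simp [mul_left_comm]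

/-- `f` is a positive real multiple of `h` -/
def PosMultiple {G : Type} (f h : G → ℂ) : Prop :=
  ∃ c : ℝ, 0 < c ∧ ∀ g, f g = (c : ℂ) * h g

/-- `chi` is the irreducible character attached to the single box `(i, j)` with label `a`, that is,
an irreducible character which is a positive multiple of the orbit sum of `y ↦ a y_{ij}` -/
def IsBoxChar (θ : AddChar F ℂ) (i j : Fin n) (a : F) (chi : Irr (UT n F)) : Prop :=
  PosMultiple chi.1 (orbitSum θ (box i j a))

/-- `A` is the supercharacter theory of André: its superclasses are the sets `superclass x`, and its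
supercharacters are, up to positive scalars, the functions `orbitSum θ lam` -/
def IsAndreTheory (θ : AddChar F ℂ) (A : SupercharTheory (UT n F)) : Prop :=
  A.K = Set.range superclass ∧
  (∀ S ∈ A.X, ∃ lam, PosMultiple (sigma S) (orbitSum θ lam)) ∧
  (∀ lam, ∃ S ∈ A.X, PosMultiple (sigma S) (orbitSum θ lam))

end Pool.Agent.H91R2.SC
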