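import Pool.Agent.H91R2.SC.Prod

open scoped BigOperators MatrixGroups Classical

namespace Pool.Agent.H91R2.SC

set_option linter.unusedSectionVars false

variable {n : ℕ} {F : Type} [Field F]

/-- the rows of `m` before row `t` contain at most one nonzero entry above the diagonal, which is
the only nonzero entry of its column above the diagonal -/
def Good (t : ℕ) (m : Fin n → Fin n → F) : Prop :=
  ∀ k l : Fin n, k.val < t → k < l → m k l ≠ 0 →
    (∀ l', k < l' → l' ≠ l → m k l' = 0) ∧ (∀ k', k' < l → k' ≠ k → m k' l = 0)

/-- every functional comes from a matrix -/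
theorem exists_matFun (lam : Module.Dual F (NT n F)) : ∃ m : Fin n → Fin n → F,
    matFun m = lam := by
  obtain ⟨g, hg⟩ := LinearMap.exists_extend lam
  refine ⟨fun k l => g (Matrix.single k l 1), ?_⟩
  ext y
  rw [matFun_apply]
  have h1 : lam y = g (y : Matrix (Fin n) (Fin n) F) := by
    rw [← hg]
    rfl
  rw [h1]
  conv_rhs => rw [Matrix.matrix_eq_sum_single (y : Matrix (Fin n) (Fin n) F)]
  rw [map_sum]
  refine Finset.sum_congr rfl fun k _ => ?_
  rw [map_sum]
  refine Finset.sum_congr rfl fun l _ => ?_
  have : Matrix.single k l ((y : Matrix (Fin n) (Fin n) F) k l) =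
      (y : Matrix (Fin n) (Fin n) F) k l • Matrix.single k l (1 : F) := by
    rw [Matrix.smul_single, smul_eq_mul, mul_one]
  rw [this, map_smul, smul_eq_mul, mul_comm]

/-- row and column operations -/
theorem act_matFun (m : Fin n → Fin n → F) (T j : Fin n) (α β : Fin n → F)
    (hβ : ∀ k, k ≤ T → β k = 0) (hα : ∀ l, j ≤ l → α l = 0) :
    ∃ u v : UT n F, act u v (matFun m) =
      matFun (fun k l => m k l + β k * m T l + α l * (m k j + β k * m T j)) := by
  let u : UT n F := subOneEquiv.symm ⟨fun k l => if k = T then β l else 0, by
    intro k l h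
    dsimp only
    split_ifs with hk
    · exact hβ l (by rw [← hk]; exact h)
    · rfl⟩
  let v : UT n F := subOneEquiv.symm ⟨fun k l => if l = j then α k else 0, by
    intro k l h
    dsimp only
    split_ifs with hk
    · exact hα k (by rw [← hk]; exact h)
    · rfl⟩
  have hu : ∀ p k, ((u : GL (Fin n) F) : Matrix (Fin n) (Fin n) F) p k =
      (if p = k then 1 else 0) + if p = T then β k else 0 := by
    intro p k
    rw [mk_coe, Matrix.add_apply, Matrix.one_apply]
  have hv : ∀ l q, ((v : GL (Fin n) F) : Matrix (Fin n) (Fin n) F) l q =
      (if l = q then 1 else 0) + if q = j then α l else 0 := by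
    intro p k
    rw [mk_coe, Matrix.add_apply, Matrix.one_apply]
  refine ⟨u, v, ?_⟩
  ext y
  rw [act_apply, matFun_apply, matFun_apply]
  simp only [twoSided_entry, hu, hv]
  -- first expand the inner sum over `k`
  have h1 : ∀ p q l : Fin n, ∑ k, ((if p = k then (1 : F) else 0) + if p = T then β k else 0) *
        (y : Matrix (Fin n) (Fin n) F) k l * ((if l = q then 1 else 0) + if q = j then α l else 0) =
      ((y : Matrix (Fin n) (Fin n) F) p l + (if p = T then 1 else 0) *
        ∑ k, β k * (y : Matrix (Fin n) (Fin n) F) k l) *
        ((if l = q then 1 else 0) + if q = j then α l else 0) := by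
    intro p q l
    rw [← Finset.sum_mul]
    congr 1
    simp only [add_mul, Finset.sum_add_distrib, ite_mul, one_mul, zero_mul]
    congr 1
    · simp
    · by_cases hp : p = T
      · simp [hp]
      · simp [hp]
  simp_rw [h1]
  have h2 : ∀ p q : Fin n, ∑ l, ((y : Matrix (Fin n) (Fin n) F) p l + (if p = T then 1 else 0) *
        ∑ k, β k * (y : Matrix (Fin n) (Fin n) F) k l) *
        ((if l = q then 1 else 0) + if q = j then α l else 0) =
      ((y : Matrix (Fin n) (Fin n) F) p q + (if p = T then 1 else 0) *
        ∑ k, β k * (y : Matrix (Fin n) (Fin n) F) k q) + (if q = j then 1 else 0) *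
        ∑ l, ((y : Matrix (Fin n) (Fin n) F) p l + (if p = T then 1 else 0) *
        ∑ k, β k * (y : Matrix (Fin n) (Fin n) F) k l) * α l := by
    intro p q
    simp only [mul_add, Finset.sum_add_distrib, mul_ite, mul_one, mul_zero]
    congr 1
    · simp
    · by_cases hq : q = j
      · simp [hq]
      · simp [hq]
  simp_rw [h2]
  -- now all sums are separated
  have e1 : ∀ f : Fin n → F, (∑ p, (if p = T then (1 : F) else 0) * f p) = f T := by
    intro f; simp
  have e2 : ∀ f : Fin n → F, (∑ p, (if p = j then (1 : F) else 0) * f p) = f j := by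
    intro f; simp
  have L : (∑ p, ∑ q, m p q * (((y : Matrix (Fin n) (Fin n) F) p q + (if p = T then 1 else 0) *
        ∑ k, β k * (y : Matrix (Fin n) (Fin n) F) k q) + (if q = j then 1 else 0) *
        ∑ l, ((y : Matrix (Fin n) (Fin n) F) p l + (if p = T then 1 else 0) *
        ∑ k, β k * (y : Matrix (Fin n) (Fin n) F) k l) * α l)) =
      (∑ p, ∑ q, m p q * (y : Matrix (Fin n) (Fin n) F) p q) +
      (∑ q, m T q * ∑ k, β k * (y : Matrix (Fin n) (Fin n) F) k q) +
      (∑ p, m p j * ∑ l, (y : Matrix (Fin n) (Fin n) F) p l * α l) +
      m T j * ∑ l, (∑ k, β k * (y : Matrix (Fin n) (Fin n) F) k l) * α l := by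
    have e3 : ∀ p q : Fin n, m p q * (((y : Matrix (Fin n) (Fin n) F) p q +
        (if p = T then 1 else 0) *
        ∑ k, β k * (y : Matrix (Fin n) (Fin n) F) k q) + (if q = j then 1 else 0) *
        ∑ l, ((y : Matrix (Fin n) (Fin n) F) p l + (if p = T then 1 else 0) *
        ∑ k, β k * (y : Matrix (Fin n) (Fin n) F) k l) * α l) =
        m p q * (y : Matrix (Fin n) (Fin n) F) p q +
        (if p = T then 1 else 0) * (m p q * ∑ k, β k * (y : Matrix (Fin n) (Fin n) F) k q) +
        (if q = j then 1 else 0) * (m p q * ∑ l, (y : Matrix (Fin n) (Fin n) F) p l * α l) +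
        (if p = T then 1 else 0) * ((if q = j then 1 else 0) * (m p q *
          ∑ l, (∑ k, β k * (y : Matrix (Fin n) (Fin n) F) k l) * α l)) := by
      intro p q
      have e4 : ∑ l, ((y : Matrix (Fin n) (Fin n) F) p l + (if p = T then 1 else 0) *
          ∑ k, β k * (y : Matrix (Fin n) (Fin n) F) k l) * α l =
          (∑ l, (y : Matrix (Fin n) (Fin n) F) p l * α l) + (if p = T then 1 else 0) *
            ∑ l, (∑ k, β k * (y : Matrix (Fin n) (Fin n) F) k l) * α l := by
        rw [Finset.mul_sum, ← Finset.sum_add_distrib]
        refine Finset.sum_congr rfl fun l _ => by ring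
      rw [e4]
      ring
    simp_rw [e3]
    simp only [Finset.sum_add_distrib]
    congr 1
    · congr 1
      · congr 1
        rw [Finset.sum_comm]
        simp_rw [e1]
      · simp_rw [e2]
    · rw [Finset.sum_comm]
      simp_rw [e1, e2]
  rw [L]
  have R : (∑ k, ∑ l, (m k l + β k * m T l + α l * (m k j + β k * m T j)) *
        (y : Matrix (Fin n) (Fin n) F) k l) =
      (∑ p, ∑ q, m p q * (y : Matrix (Fin n) (Fin n) F) p q) +
      (∑ k, ∑ l, β k * m T l * (y : Matrix (Fin n) (Fin n) F) k l) +
      (∑ k, ∑ l, α l * m k j * (y : Matrix (Fin n) (Fin n) F) k l) +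
      (∑ k, ∑ l, α l * β k * m T j * (y : Matrix (Fin n) (Fin n) F) k l) := by
    simp only [← Finset.sum_add_distrib]
    refine Finset.sum_congr rfl fun k _ => Finset.sum_congr rfl fun l _ => by ring
  rw [R]
  congr 1
  · congr 1
    · congr 1
      rw [Finset.sum_comm]
      refine Finset.sum_congr rfl fun q _ => ?_
      rw [Finset.mul_sum]
      refine Finset.sum_congr rfl fun k _ => by ring
    · refine Finset.sum_congr rfl fun q _ => ?_
      rw [Finset.mul_sum]
      refine Finset.sum_congr rfl fun k _ => by ring
  · rw [Finset.sum_comm, Finset.mul_sum]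
    refine Finset.sum_congr rfl fun q _ => ?_
    rw [Finset.sum_mul, Finset.mul_sum]
    refine Finset.sum_congr rfl fun k _ => by ring

/-- one step of the elimination -/
theorem good_step (lam : Module.Dual F (NT n F)) (t : ℕ) (ht : t < n)
    (m : Fin n → Fin n → F) (hm : matFun m ∈ orbit lam) (hg : Good t m) :
    ∃ m' : Fin n → Fin n → F, matFun m' ∈ orbit lam ∧ Good (t + 1) m' := by
  let T : Fin n := ⟨t, ht⟩
  by_cases h0 : ∀ l, T < l → m T l = 0
  · refine ⟨m, hm, ?_⟩
    intro k l hk hkl hne
    rcases Nat.lt_succ_iff_lt_or_eq.1 hk with h | h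
    · exact hg k l h hkl hne
    · have : k = T := Fin.ext h
      subst this
      exact absurd (h0 l hkl) hne
  · push Not at h0
    obtain ⟨l0, hl0, hl0'⟩ := h0
    -- the last nonzero entry of row `T`
    obtain ⟨j, ⟨hTj, hmj⟩, hmax⟩ : ∃ j, (T < j ∧ m T j ≠ 0) ∧ ∀ l, T < l → m T l ≠ 0 → l ≤ j := by
      let S : Finset (Fin n) := Finset.univ.filter fun l => T < l ∧ m T l ≠ 0
      have hS : S.Nonempty := ⟨l0, by simp [S, hl0, hl0']⟩
      refine ⟨S.max' hS, ?_, fun l h1 h2 => S.le_max' l (by simp [S, h1, h2])⟩
      have := S.max'_mem hS
      simpa [S] using this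
    let α : Fin n → F := fun l => if T < l ∧ l < j then -(m T l / m T j) else 0
    let β : Fin n → F := fun k => if T < k ∧ k < j then -(m k j / m T j) else 0
    have hβ : ∀ k, k ≤ T → β k = 0 := by
      intro k hk
      simp only [β]
      rw [if_neg]
      rintro ⟨h1, _⟩
      exact absurd hk (not_le.2 h1)
    have hα : ∀ l, j ≤ l → α l = 0 := by
      intro l hl
      simp only [α]
      rw [if_neg]
      rintro ⟨_, h1⟩
      exact absurd hl (not_le.2 h1)
    obtain ⟨u, v, huv⟩ := act_matFun m T j α β hβ hα
    refine ⟨fun k l => m k l + β k * m T l + α l * (m k j + β k * m T j), ?_, ?_⟩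
    · rw [← huv, act_mem_orbit]
      exact hm
    · -- column `j` is zero above row `T`
      have hcol : ∀ k, k < T → m k j = 0 := by
        intro k hk
        by_contra hne
        have := (hg k j hk (hk.trans hTj) hne).2 T hTj hk.ne'
        exact hmj this
      -- cleared entries
      have hclr : ∀ k, T < k → k < j → m k j + β k * m T j = 0 := by
        intro k h1 h2
        simp only [β]
        rw [if_pos ⟨h1, h2⟩, neg_mul, div_mul_cancel₀ _ hmj, add_neg_cancel]
      intro k l hk hkl hne
      dsimp only at hne ⊢
      rcases Nat.lt_succ_iff_lt_or_eq.1 hk with h | h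
      · -- an old row
        have hkT : k < T := h
        have hβk : β k = 0 := hβ k hkT.le
        have hrow : ∀ l', m k l' + β k * m T l' + α l' * (m k j + β k * m T j) = m k l' := by
          intro l'
          rw [hβk, hcol k hkT]
          ring
        rw [hrow] at hne
        obtain ⟨g1, g2⟩ := hg k l h hkl hne
        refine ⟨fun l' h1 h2 => by rw [hrow]; exact g1 l' h1 h2, fun k' h1 h2 => ?_⟩
        rw [g2 k' h1 h2]
        rcases lt_or_ge T l with hTl | hTl
        · have h3 : m T l = 0 := g2 T hTl hkT.ne'
          have h4 : α l = 0 := by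
            simp only [α]
            split_ifs
            · rw [h3, zero_div, neg_zero]
            · rfl
          rw [h3, h4]
          ring
        · have h3 : β k' = 0 := hβ k' (h1.le.trans hTl)
          have h4 : α l = 0 := by
            simp only [α]
            rw [if_neg]
            rintro ⟨h5, _⟩
            exact absurd hTl (not_le.2 h5)
          rw [h3, h4]
          ring
      · -- the new row
        have hkT : k = T := Fin.ext h
        subst hkT
        have hβk : β T = 0 := hβ T le_rfl
        have hrow : ∀ l', T < l' → l' ≠ j →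
            m T l' + β T * m T l' + α l' * (m T j + β T * m T j) = 0 := by
          intro l' h1 h2
          rcases lt_or_gt_of_ne h2 with h3 | h3
          · have h4 : α l' = -(m T l' / m T j) := by
              simp only [α]
              rw [if_pos ⟨h1, h3⟩]
            rw [hβk, h4]
            field_simp
            ring
          · have h4 : m T l' = 0 := by
              by_contra hne'
              exact absurd (hmax l' h1 hne') (not_le.2 h3)
            rw [hβk, h4, hα l' h3.le]
            ring
        have hlj : l = j := by
          by_contra hne'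
          exact hne (hrow l hkl hne')
        subst hlj
        refine ⟨fun l' h1 h2 => hrow l' h1 h2, fun k' h1 h2 => ?_⟩
        rw [hα l le_rfl, zero_mul, add_zero]
        rcases lt_or_gt_of_ne h2 with h3 | h3
        · rw [hβ k' h3.le, hcol k' h3]
          ring
        · exact hclr k' h3 h1

/-- every orbit contains a functional with at most one entry in each row and column -/
theorem exists_good (lam : Module.Dual F (NT n F)) :
    ∃ m : Fin n → Fin n → F, matFun m ∈ orbit lam ∧ Good n m := by
  have h : ∀ t, t ≤ n → ∃ m : Fin n → Fin n → F, matFun m ∈ orbit lam ∧ Good t m := by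
    intro t
    induction t with
    | zero =>
      intro _
      obtain ⟨m, hm⟩ := exists_matFun lam
      refine ⟨m, by rw [hm]; exact mem_orbit_self lam, fun k l hk => absurd hk (Nat.not_lt_zero _)⟩
    | succ t ih =>
      intro ht
      obtain ⟨m, h1, h2⟩ := ih (by omega)
      exact good_step lam t (by omega) m h1 h2
  exact h n le_rfl

/-- induction over functionals: adding boxes in new rows and columns, and moving in an orbit -/
theorem orbit_induction (P : Module.Dual F (NT n F) → Prop) (h0 : P 0)
    (hadd : ∀ (m : Fin n → Fin n → F) (i j : Fin n) (a : F), i < j → a ≠ 0 →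
      (∀ l, m i l = 0) → (∀ k, m k j = 0) → P (matFun m) → P (matFun m + box i j a))
    (horb : ∀ lam mu, mu ∈ orbit lam → P mu → P lam) (lam : Module.Dual F (NT n F)) : P lam := by
  obtain ⟨m, h1, h2⟩ := exists_good lam
  apply horb lam _ h1
  let S : Finset (Fin n × Fin n) := Finset.univ.filter fun p => p.1 < p.2 ∧ m p.1 p.2 ≠ 0
  have key : ∀ S' : Finset (Fin n × Fin n), S' ⊆ S →
      P (matFun (fun k l => if (k, l) ∈ S' then m k l else 0)) := by
    intro S'
    induction S' using Finset.induction_on with
    | empty =>
      intro _
      have : matFun (fun k l => if (k, l) ∈ (∅ : Finset (Fin n × Fin n)) then m k l else 0) = 0 := by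
        ext y
        rw [matFun_apply]
        simp
      rw [this]
      exact h0
    | insert p S' hp ih =>
      intro hS
      obtain ⟨i, j⟩ := p
      have hpS : (i, j) ∈ S := hS (Finset.mem_insert_self _ _)
      have hS' : S' ⊆ S := fun q hq => hS (Finset.mem_insert_of_mem hq)
      simp only [S, Finset.mem_filter, Finset.mem_univ, true_and] at hpS
      obtain ⟨hij, hmij⟩ := hpS
      obtain ⟨g1, g2⟩ := h2 i j i.2 hij hmij
      have hsum : matFun (fun k l => if (k, l) ∈ insert (i, j) S' then m k l else 0) =
          matFun (fun k l => if (k, l) ∈ S' then m k l else 0) + box i j (m i j) := by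
        ext y
        rw [LinearMap.add_apply, matFun_apply, matFun_apply]
        have e1 : ∀ k l : Fin n, (if (k, l) ∈ insert (i, j) S' then m k l else 0) *
            (y : Matrix (Fin n) (Fin n) F) k l =
            (if (k, l) ∈ S' then m k l else 0) * (y : Matrix (Fin n) (Fin n) F) k l +
            (if k = i then (if l = j then m i j * (y : Matrix (Fin n) (Fin n) F) i j else 0)
              else 0) := by
          intro k l
          by_cases hk : k = i ∧ l = j
          · obtain ⟨rfl, rfl⟩ := hk
            rw [if_pos (Finset.mem_insert_self _ _), if_neg hp, if_pos rfl, if_pos rfl]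
            ring
          · have h3 : (k, l) ∈ insert (i, j) S' ↔ (k, l) ∈ S' := by
              rw [Finset.mem_insert]
              constructor
              · rintro (h | h)
                · exact absurd (Prod.mk.inj h) hk
                · exact h
              · exact Or.inr
            simp only [h3]
            have h4 : (if k = i then (if l = j then m i j *
                (y : Matrix (Fin n) (Fin n) F) i j else 0) else 0) = 0 := by
              split_ifs with h5 h6
              · exact absurd ⟨h5, h6⟩ hk
              · rfl
              · rfl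
            rw [h4, add_zero]
        simp_rw [e1]
        simp only [Finset.sum_add_distrib]
        congr 1
        simp [box]
      rw [hsum]
      apply hadd _ i j (m i j) hij hmij _ _ (ih hS')
      · intro l
        rw [if_neg]
        intro h
        have h3 := hS' h
        simp only [S, Finset.mem_filter, Finset.mem_univ, true_and] at h3
        by_cases hl : l = j
        · rw [hl] at h
          exact hp h
        · exact h3.2 (g1 l h3.1 hl)
      · intro k
        rw [if_neg]
        intro h
        have h3 := hS' h
        simp only [S, Finset.mem_filter, Finset.mem_univ, true_and] at h3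
        by_cases hk : k = i
        · rw [hk] at h
          exact hp h
        · exact h3.2 (g2 k h3.1 hk)
  have h3 : matFun m = matFun (fun k l => if (k, l) ∈ S then m k l else 0) := by
    ext y
    rw [matFun_apply, matFun_apply]
    refine Finset.sum_congr rfl fun k _ => Finset.sum_congr rfl fun l _ => ?_
    by_cases hkl : k < l
    · by_cases hm : m k l = 0
      · rw [hm, ite_self]
      · rw [if_pos]
        simp [S, hkl, hm]
    · rw [y.2 k l (not_lt.1 hkl), mul_zero, mul_zero]
  rw [h3]
  exact key S (Finset.Subset.refl _)

end Pool.Agent.H91R2.SC
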