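import Pool.Agent.H91R2.SC.Box
import Pool.Agent.H91R2.SC.Mono
import Pool.Agent.H91R2.SC.Count

open scoped BigOperators MatrixGroups Classical

namespace Pool.Agent.H91R2.SC

set_option linter.unusedSectionVars false

open Pool.Agent.Helper884

variable {n : ℕ} {F : Type} [Field F] [Fintype F]

theorem natCard_UT : (Nat.card (UT n F) : ℂ) = (Fintype.card (UT n F) : ℂ) := by
  rw [Nat.card_eq_fintype_card]

theorem B_prod {θ : AddChar F ℂ} (hθ : θ ≠ 1) (lam nu : Module.Dual F (NT n F))
    (chi : Irr (UT n F)) :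
    (if orbit lam = orbit nu then IC.B (orbitSum θ lam) chi.1 * chi.1 1 else 0) =
      IC.B (orbitSum θ lam) chi.1 * IC.B (orbitSum θ nu) chi.1 := by
  have h1 := B_conv chi.2 (orbitSum θ lam) (orbitSum θ nu) (isClass_orbitSum θ lam)
    (isClass_orbitSum θ nu)
  simp_rw [orbitSum_conv hθ] at h1
  have hG : (Nat.card (UT n F) : ℂ) ≠ 0 := IC.cardG_ne
  by_cases h : orbit lam = orbit nu
  · rw [if_pos h]
    simp only [if_pos h] at h1
    have h2 : (fun g => (Fintype.card (UT n F) : ℂ) * orbitSum θ lam g) =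
        (Fintype.card (UT n F) : ℂ) • orbitSum θ lam := rfl
    rw [h2, IC.B_smul_left, ← natCard_UT, mul_assoc] at h1
    exact mul_left_cancel₀ hG h1
  · rw [if_neg h]
    simp only [if_neg h] at h1
    have h2 : IC.B (fun _ : UT n F => (0 : ℂ)) chi.1 = 0 := by simp [IC.B]
    rw [h2, zero_mul] at h1
    rcases mul_eq_zero.1 h1.symm with h3 | h3
    · exact absurd h3 hG
    · exact h3.symm

theorem B_dich {θ : AddChar F ℂ} (hθ : θ ≠ 1) (lam : Module.Dual F (NT n F))
    (chi : Irr (UT n F)) (h : IC.B (orbitSum θ lam) chi.1 ≠ 0) :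
    IC.B (orbitSum θ lam) chi.1 = chi.1 1 := by
  have h1 := B_prod hθ lam lam chi
  rw [if_pos rfl] at h1
  exact (mul_left_cancel₀ h h1).symm

theorem orbit_eq_of_B {θ : AddChar F ℂ} (hθ : θ ≠ 1) {lam nu : Module.Dual F (NT n F)}
    {chi : Irr (UT n F)} (h1 : IC.B (orbitSum θ lam) chi.1 ≠ 0)
    (h2 : IC.B (orbitSum θ nu) chi.1 ≠ 0) : orbit lam = orbit nu := by
  by_contra h
  have h3 := B_prod hθ lam nu chi
  rw [if_neg h] at h3
  rcases mul_eq_zero.1 h3.symm with h4 | h4
  · exact h1 h4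
  · exact h2 h4

theorem exists_B {θ : AddChar F ℂ} (hθ : θ ≠ 1) (chi : Irr (UT n F)) :
    ∃ lam : Module.Dual F (NT n F), IC.B (orbitSum θ lam) chi.1 ≠ 0 := by
  by_contra hcon
  push Not at hcon
  have h1 : (fun g : UT n F => if g = 1 then (Fintype.card (UT n F) : ℂ) else 0) =
      ∑ lam : Module.Dual F (NT n F), (osize lam)⁻¹ • orbitSum θ lam := by
    funext g
    have h2 := sum_dual hθ (subOne g)
    simp only [subOne_eq_zero] at h2
    rw [← h2, sum_orbits, Finset.sum_apply]
    refine Finset.sum_congr rfl fun lam _ => ?_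
    rw [Pi.smul_apply, smul_eq_mul, orbitSum_eq]
    rfl
  have h3 : IC.B (fun g : UT n F => if g = 1 then (Fintype.card (UT n F) : ℂ) else 0) chi.1 = 0 := by
    rw [h1, IC.B_sum_left]
    refine Finset.sum_eq_zero fun lam _ => ?_
    rw [IC.B_smul_left, hcon, mul_zero]
  have h4 : IC.B (fun g : UT n F => if g = 1 then (Fintype.card (UT n F) : ℂ) else 0) chi.1 =
      chi.1 1 := by
    unfold IC.B
    simp only [ite_mul, zero_mul, Finset.sum_ite_eq', Finset.mem_univ, if_true, inv_one]
    rw [← natCard_UT, inv_mul_cancel_left₀ IC.cardG_ne]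
  rw [h3] at h4
  exact irr_one_ne chi.2 h4.symm

/-- the irreducible constituents of the orbit sum -/
def Xset (θ : AddChar F ℂ) (lam : Module.Dual F (NT n F)) : Set (Irr (UT n F)) :=
  {chi | IC.B (orbitSum θ lam) chi.1 ≠ 0}

theorem sigma_Xset {θ : AddChar F ℂ} (hθ : θ ≠ 1) (lam : Module.Dual F (NT n F)) (g : UT n F) :
    sigma (Xset θ lam) g = orbitSum θ lam g := by
  rw [sigma_eq, expand' (orbitSum θ lam) (isClass_orbitSum θ lam) g]
  refine Finset.sum_congr rfl fun psi _ => ?_
  by_cases h : psi ∈ Xset θ lam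
  · rw [if_pos h, B_dich hθ lam psi h]
  · rw [if_neg h]
    have : IC.B (orbitSum θ lam) psi.1 = 0 := by
      by_contra h'
      exact h h'
    rw [this, zero_mul]

theorem Xset_nonempty {θ : AddChar F ℂ} (hθ : θ ≠ 1) (lam : Module.Dual F (NT n F)) :
    ∃ psi, psi ∈ Xset θ lam := by
  by_contra hcon
  push Not at hcon
  have h1 := sigma_Xset hθ lam 1
  rw [sigma_eq, orbitSum_eq, subOne_one, os_zero, Finset.sum_eq_zero] at h1
  · exact osize_ne lam h1.symm
  · intro psi _
    rw [if_neg (hcon psi)]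

theorem Xset_congr {θ : AddChar F ℂ} {lam nu : Module.Dual F (NT n F)} (h : orbit lam = orbit nu) :
    Xset θ lam = Xset θ nu := by
  have : orbitSum θ lam = orbitSum θ nu := by
    funext g
    rw [orbitSum_eq, orbitSum_eq, os_congr θ h]
  unfold Xset
  rw [this]

theorem superclass_eq {g x : UT n F} (h : g ∈ superclass x) : superclass g = superclass x := by
  obtain ⟨u, v, h⟩ := h
  ext y
  constructor
  · rintro ⟨p, q, hpq⟩
    exact ⟨p * u, v * q, by rw [← twoSided_twoSided, ← h, hpq]⟩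
  · rintro ⟨p, q, hpq⟩
    refine ⟨p * u⁻¹, v⁻¹ * q, ?_⟩
    rw [h, twoSided_twoSided, hpq]
    simp [mul_assoc]

theorem mem_superclass_self (g : UT n F) : g ∈ superclass g := ⟨1, 1, by rw [twoSided_one]⟩

/-- André's supercharacter theory -/
noncomputable def andre (θ : AddChar F ℂ) (hθ : θ ≠ 1) : SupercharTheory (UT n F) where
  X := Set.range (Xset θ)
  K := Set.range superclass
  isPartition_X := by
    refine ⟨?_, fun chi => ?_⟩
    · rintro ⟨lam, h⟩
      obtain ⟨psi, hpsi⟩ := Xset_nonempty hθ lam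
      rw [h] at hpsi
      exact hpsi
    · obtain ⟨lam, hlam⟩ := exists_B hθ chi
      refine ⟨Xset θ lam, ⟨⟨lam, rfl⟩, hlam⟩, ?_⟩
      rintro _ ⟨⟨nu, rfl⟩, hnu⟩
      exact Xset_congr (orbit_eq_of_B hθ hnu hlam)
  isPartition_K := by
    refine ⟨?_, fun g => ?_⟩
    · rintro ⟨x, h⟩
      have := mem_superclass_self x
      rw [h] at this
      exact this
    · refine ⟨superclass g, ⟨⟨g, rfl⟩, mem_superclass_self g⟩, ?_⟩
      rintro _ ⟨⟨x, rfl⟩, hx⟩
      exact (superclass_eq hx).symm
  card_eq := by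
    have h1 : Nat.card (Set.range (Xset θ : Module.Dual F (NT n F) → Set (Irr (UT n F)))) =
        Nat.card (Set.range (orbit : Module.Dual F (NT n F) → Set (Module.Dual F (NT n F)))) := by
      let φ : Set.range (orbit : Module.Dual F (NT n F) → Set (Module.Dual F (NT n F))) →
          Set.range (Xset θ : Module.Dual F (NT n F) → Set (Irr (UT n F))) :=
        fun O => ⟨Xset θ O.2.choose, ⟨_, rfl⟩⟩
      refine (Nat.card_eq_of_bijective φ ⟨?_, ?_⟩).symm
      · intro O O' h
        have h2 : Xset θ O.2.choose = Xset θ O'.2.choose := congrArg Subtype.val h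
        obtain ⟨psi, hpsi⟩ := Xset_nonempty hθ O.2.choose
        have h3 : psi ∈ Xset θ O'.2.choose := by rw [← h2]; exact hpsi
        have h4 := orbit_eq_of_B hθ hpsi h3
        apply Subtype.ext
        rw [← O.2.choose_spec, ← O'.2.choose_spec]
        exact h4
      · rintro ⟨_, lam, rfl⟩
        refine ⟨⟨orbit lam, ⟨lam, rfl⟩⟩, ?_⟩
        apply Subtype.ext
        have h5 : ∃ y, orbit y = orbit lam := ⟨lam, rfl⟩
        change Xset θ h5.choose = Xset θ lam
        exact Xset_congr h5.choose_spec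
    have h2 := card_range_superclass (n := n) (F := F)
    exact Finite.card_eq.1 (h1.trans h2.symm)
  one_mem := by
    refine ⟨1, ?_⟩
    ext g
    rw [Set.mem_singleton_iff]
    constructor
    · rintro ⟨u, v, h⟩
      rw [subOne_one, map_zero, subOne_eq_zero] at h
      exact h
    · rintro rfl
      exact mem_superclass_self 1
  const := by
    rintro _ ⟨lam, rfl⟩ _ ⟨x, rfl⟩ g hg h hh
    rw [sigma_Xset hθ, sigma_Xset hθ, orbitSum_of_superclass θ lam hg,
      orbitSum_of_superclass θ lam hh]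

theorem andre_isAndre {θ : AddChar F ℂ} (hθ : θ ≠ 1) :
    IsAndreTheory θ (andre (n := n) θ hθ) := by
  refine ⟨rfl, ?_, ?_⟩
  · rintro _ ⟨lam, rfl⟩
    exact ⟨lam, 1, one_pos, fun g => by rw [sigma_Xset hθ]; simp⟩
  · intro lam
    exact ⟨_, ⟨lam, rfl⟩, 1, one_pos, fun g => by rw [sigma_Xset hθ]; simp⟩

theorem B_of_posMultiple {θ : AddChar F ℂ} (lam : Module.Dual F (NT n F)) (chi : Irr (UT n F))
    (h : PosMultiple chi.1 (orbitSum θ lam)) : IC.B (orbitSum θ lam) chi.1 ≠ 0 := by
  obtain ⟨c, hc, h⟩ := h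
  intro h0
  have h1 : chi.1 = (c : ℂ) • orbitSum θ lam := by
    funext g
    rw [h g]
    rfl
  have h2 := B_irr' chi chi
  rw [if_pos rfl] at h2
  have h3 : IC.B ((c : ℂ) • orbitSum θ lam) chi.1 = 1 := by
    rw [← h1]
    exact h2
  rw [IC.B_smul_left, h0, mul_zero] at h3
  exact zero_ne_one h3

/-- the constituents of a single box orbit sum form a singleton -/
theorem Xset_box {θ : AddChar F ℂ} (hθ : θ ≠ 1) (i j : Fin n) (hij : i < j) (a : F)
    (chi : Irr (UT n F)) (h : chi ∈ Xset θ (box i j a)) : Xset θ (box i j a) = {chi} := by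
  ext psi
  rw [Set.mem_singleton_iff]
  constructor
  · intro hpsi
    obtain ⟨c, hc, h1⟩ := box_multiple i j hij a chi (B_dich hθ _ chi h)
    obtain ⟨d, hd, h2⟩ := box_multiple i j hij a psi (B_dich hθ _ psi hpsi)
    by_contra hne
    have h3 := B_irr' psi chi
    rw [if_neg hne] at h3
    have h4 : psi.1 = (d : ℂ) • orbitSum θ (box i j a) := by
      funext g
      rw [h2 g]
      rfl
    have h5 : IC.B ((d : ℂ) • orbitSum θ (box i j a)) chi.1 = 0 := by
      rw [← h4]
      exact h3
    rw [IC.B_smul_left] at h5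
    rcases mul_eq_zero.1 h5 with h6 | h6
    · have : d = 0 := by exact_mod_cast h6
      exact hd.ne' this
    · exact h h6
  · rintro rfl
    exact h

theorem exists_boxChar {θ : AddChar F ℂ} (hθ : θ ≠ 1) (i j : Fin n) (hij : i < j) (a : F) :
    ∃ chi : Irr (UT n F), IsBoxChar θ i j a chi ∧ chi ∈ Xset θ (box i j a) := by
  obtain ⟨chi, hchi⟩ := Xset_nonempty hθ (box i j a)
  exact ⟨chi, box_multiple i j hij a chi (B_dich hθ _ chi hchi), hchi⟩

theorem andre_contains {θ : AddChar F ℂ} (hθ : θ ≠ 1) (i j : Fin n) (hij : i < j) (a : F)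
    (chi : Irr (UT n F)) (h : IsBoxChar θ i j a chi) : Contains (andre θ hθ) chi := by
  have h1 : chi ∈ Xset θ (box i j a) := B_of_posMultiple _ chi h
  exact ⟨box i j a, Xset_box hθ i j hij a chi h1⟩

/-- the definition of André's theory determines it -/
theorem isAndre_X {θ : AddChar F ℂ} (hθ : θ ≠ 1) (A : SupercharTheory (UT n F))
    (hA : IsAndreTheory θ A) : A.X = (andre θ hθ).X := by
  have key : ∀ (S : Set (Irr (UT n F))) (lam : Module.Dual F (NT n F)),
      PosMultiple (sigma S) (orbitSum θ lam) → S = Xset θ lam := by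
    rintro S lam ⟨c, hc, h⟩
    have h1 : sigma S = (c : ℂ) • orbitSum θ lam := by
      funext g
      rw [h g]
      rfl
    have hc' : (c : ℂ) ≠ 0 := by exact_mod_cast hc.ne'
    ext psi
    have h2 := B_sigma S psi
    rw [h1, IC.B_smul_left] at h2
    change psi ∈ S ↔ IC.B (orbitSum θ lam) psi.1 ≠ 0
    constructor
    · intro hpsi
      rw [if_pos hpsi] at h2
      intro h3
      rw [h3, mul_zero] at h2
      exact irr_one_ne psi.2 h2.symm
    · intro h3
      by_contra hpsi
      rw [if_neg hpsi] at h2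
      rcases mul_eq_zero.1 h2 with h4 | h4
      · exact hc' h4
      · exact h3 h4
  ext S
  constructor
  · intro hS
    obtain ⟨lam, h⟩ := hA.2.1 S hS
    exact ⟨lam, (key S lam h).symm⟩
  · rintro ⟨lam, rfl⟩
    obtain ⟨S, hS, h⟩ := hA.2.2 lam
    rw [← key S lam h]
    exact hS

/-- the theory of André is the coarsest one containing all single box characters -/
theorem andre_coarsest {θ : AddChar F ℂ} (hθ : θ ≠ 1) (T : SupercharTheory (UT n F))
    (hT : ∀ (i j : Fin n) (a : F) (chi : Irr (UT n F)), i < j → a ≠ 0 → IsBoxChar θ i j a chi →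
      Contains T chi) : CoarserEq (andre θ hθ) T := by
  -- every orbit sum is constant on the blocks of `T`
  have key : ∀ lam : Module.Dual F (NT n F), ∀ B ∈ T.K, ∀ g ∈ B, ∀ h ∈ B,
      orbitSum θ lam g = orbitSum θ lam h := by
    have hbox : ∀ (i j : Fin n) (a : F), i < j → a ≠ 0 → ∀ B ∈ T.K, ∀ g ∈ B, ∀ h ∈ B,
        orbitSum θ (box i j a) g = orbitSum θ (box i j a) h := by
      intro i j a hij ha B hB g hg h hh
      obtain ⟨chi, h1, _⟩ := exists_boxChar hθ i j hij a
      have h2 := T.const _ (hT i j a chi hij ha h1) B hB g hg h hh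
      have h3 : ∀ x, sigma {chi} x = chi.1 1 * chi.1 x := by
        intro x
        rw [sigma_eq]
        simp
      rw [h3, h3] at h2
      have h4 := mul_left_cancel₀ (irr_one_ne chi.2) h2
      obtain ⟨c, hc, h5⟩ := h1
      rw [h5, h5] at h4
      have hc' : (c : ℂ) ≠ 0 := by exact_mod_cast hc.ne'
      exact mul_left_cancel₀ hc' h4
    have hds : ∀ lam : Module.Dual F (NT n F), (∀ B ∈ T.K, ∀ g ∈ B, ∀ h ∈ B,
        orbitSum θ lam g = orbitSum θ lam h) ↔ (∀ B ∈ T.K, ∀ g ∈ B, ∀ h ∈ B,
        ds θ lam (subOne g) = ds θ lam (subOne h)) := by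
      intro lam
      obtain ⟨c, hc, h1⟩ := ds_eq θ lam
      constructor
      · intro h2 B hB g hg h hh
        rw [h1, h1, ← orbitSum_eq, ← orbitSum_eq, h2 B hB g hg h hh]
      · intro h2 B hB g hg h hh
        have h3 := h2 B hB g hg h hh
        rw [h1, h1, ← orbitSum_eq, ← orbitSum_eq] at h3
        exact mul_left_cancel₀ hc h3
    intro lam
    refine orbit_induction (P := fun lam => ∀ B ∈ T.K, ∀ g ∈ B, ∀ h ∈ B,
      orbitSum θ lam g = orbitSum θ lam h) ?_ ?_ ?_ lam
    · intro B hB g hg h hh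
      rw [orbitSum_eq, orbitSum_eq]
      unfold os
      refine Finset.sum_congr rfl fun mu _ => ?_
      split_ifs with hmu
      · obtain ⟨u, v, rfl⟩ := hmu
        rfl
      · rfl
    · intro m i j a hij ha hi hj hP
      have h1 := (hds _).1 hP
      have h2 := (hds _).1 (hbox i j a hij ha)
      rw [hds]
      intro B hB g hg h hh
      have h3 := ds_mul θ m i j a hi hj (subOne g)
      have h4 := ds_mul θ m i j a hi hj (subOne h)
      rw [h1 B hB g hg h hh, h2 B hB g hg h hh, h4] at h3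
      have hU : (Fintype.card (UT n F) : ℂ) ≠ 0 := by exact_mod_cast Fintype.card_ne_zero
      exact (mul_left_cancel₀ (mul_ne_zero hU hU) h3).symm
    · intro lam mu hmu hP B hB g hg h hh
      rw [orbitSum_eq, orbitSum_eq, ← os_congr θ (orbit_eq hmu), ← os_congr θ (orbit_eq hmu),
        ← orbitSum_eq, ← orbitSum_eq]
      exact hP B hB g hg h hh
  refine ⟨?_, ?_⟩
  · intro B hB
    have hne : ∃ x, x ∈ B := by
      by_contra hcon
      push Not at hcon
      have : B = ∅ := Set.eq_empty_iff_forall_notMem.2 hcon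
      apply T.isPartition_K.1
      rw [← this]
      exact hB
    obtain ⟨x, hx⟩ := hne
    refine ⟨superclass x, ⟨x, rfl⟩, fun g hg => ?_⟩
    exact superclass_of_orbitSum_eq hθ g x fun lam => key lam B hB g hg x hx
  · intro S hS
    have hne : ∃ x, x ∈ S := by
      by_contra hcon
      push Not at hcon
      have : S = ∅ := Set.eq_empty_iff_forall_notMem.2 hcon
      apply T.isPartition_X.1
      rw [← this]
      exact hS
    obtain ⟨psi, hpsi⟩ := hne
    obtain ⟨lam, hlam⟩ := exists_B hθ psi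
    refine ⟨Xset θ lam, ⟨lam, rfl⟩, fun phi hphi => ?_⟩
    obtain ⟨c, hc⟩ := T.span (orbitSum θ lam) (key lam)
    have h1 := hc S hS psi hpsi
    have h2 := hc S hS phi hphi
    change IC.B (orbitSum θ lam) phi.1 ≠ 0
    rw [h2]
    refine mul_ne_zero ?_ (irr_one_ne phi.2)
    intro h0
    rw [h0, zero_mul] at h1
    exact hlam h1

end Pool.Agent.H91R2.SC
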