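import Pool.Agent.H91R2.SC.Base

open scoped BigOperators MatrixGroups Classical

namespace Pool.Agent.H91R2.SC

set_option linter.unusedSectionVars false

variable {n : ℕ} {F : Type} [Field F] [Fintype F]

/-- the orbit sum as a function on `𝔫` -/
noncomputable def os (θ : AddChar F ℂ) (lam : Module.Dual F (NT n F)) (y : NT n F) : ℂ :=
  ∑ mu : Module.Dual F (NT n F), if mu ∈ orbit lam then θ (mu y) else 0

theorem orbitSum_eq (θ : AddChar F ℂ) (lam : Module.Dual F (NT n F)) (g : UT n F) :
    orbitSum θ lam g = os θ lam (subOne g) := by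
  unfold orbitSum os
  rw [finsum_mem_def, finsum_eq_sum_of_fintype]
  refine Finset.sum_congr rfl fun mu _ => ?_
  rw [Set.indicator_apply]

theorem os_twoSided (θ : AddChar F ℂ) (lam : Module.Dual F (NT n F)) (u v : UT n F) (y : NT n F) :
    os θ lam (twoSided u v y) = os θ lam y := by
  unfold os
  refine Fintype.sum_equiv (actEquiv u v) _ _ fun mu => ?_
  change _ = if act u v mu ∈ orbit lam then θ (act u v mu y) else 0
  rw [act_apply]
  simp only [act_mem_orbit]

theorem os_congr (θ : AddChar F ℂ) {lam mu : Module.Dual F (NT n F)} (h : orbit lam = orbit mu)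
    (y : NT n F) : os θ lam y = os θ mu y := by
  unfold os
  rw [h]

theorem orbit_symm {lam mu : Module.Dual F (NT n F)} : mu ∈ orbit lam ↔ lam ∈ orbit mu := by
  constructor
  · intro h
    rw [orbit_eq h]
    exact mem_orbit_self lam
  · intro h
    rw [orbit_eq h]
    exact mem_orbit_self mu

theorem orbit_eq_iff {lam mu : Module.Dual F (NT n F)} : orbit mu = orbit lam ↔ mu ∈ orbit lam := by
  constructor
  · intro h
    rw [← h]
    exact mem_orbit_self mu
  · exact orbit_eq

/-- the size of an orbit -/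
noncomputable def osize (lam : Module.Dual F (NT n F)) : ℂ :=
  ∑ mu : Module.Dual F (NT n F), if mu ∈ orbit lam then 1 else 0

theorem osize_pos (lam : Module.Dual F (NT n F)) : ∃ r : ℝ, 0 < r ∧ osize lam = r := by
  refine ⟨∑ mu : Module.Dual F (NT n F), if mu ∈ orbit lam then 1 else 0, ?_, ?_⟩
  · refine Finset.sum_pos' (fun mu _ => ?_) ⟨lam, Finset.mem_univ _, ?_⟩
    · split_ifs
      · exact zero_le_one
      · exact le_rfl
    · rw [if_pos (mem_orbit_self lam)]
      exact zero_lt_one
  · unfold osize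
    rw [Complex.ofReal_sum]
    refine Finset.sum_congr rfl fun mu _ => ?_
    split_ifs <;> simp

theorem osize_ne (lam : Module.Dual F (NT n F)) : osize lam ≠ 0 := by
  obtain ⟨r, hr, h⟩ := osize_pos lam
  rw [h]
  exact_mod_cast hr.ne'

theorem osize_congr {lam mu : Module.Dual F (NT n F)} (h : orbit lam = orbit mu) :
    osize lam = osize mu := by
  unfold osize
  rw [h]

theorem os_zero (θ : AddChar F ℂ) (lam : Module.Dual F (NT n F)) : os θ lam 0 = osize lam := by
  unfold os osize
  refine Finset.sum_congr rfl fun mu _ => ?_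
  rw [map_zero, AddChar.map_zero_eq_one]

/-- averaging a sum over the dual space over orbits -/
theorem sum_orbits (f : Module.Dual F (NT n F) → ℂ) :
    ∑ mu, f mu = ∑ lam, (osize lam)⁻¹ * ∑ mu, if mu ∈ orbit lam then f mu else 0 := by
  simp_rw [Finset.mul_sum]
  rw [Finset.sum_comm]
  refine Finset.sum_congr rfl fun mu _ => ?_
  have h1 : ∀ lam : Module.Dual F (NT n F), ((osize lam)⁻¹ * if mu ∈ orbit lam then f mu else 0) =
      (osize mu)⁻¹ * f mu * (if lam ∈ orbit mu then 1 else 0) := by
    intro lam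
    by_cases h : mu ∈ orbit lam
    · rw [if_pos h, if_pos (orbit_symm.1 h), osize_congr (orbit_eq h), mul_one]
    · rw [if_neg h, if_neg (fun h' => h (orbit_symm.1 h')), mul_zero, mul_zero]
  simp_rw [h1]
  rw [← Finset.mul_sum]
  change f mu = (osize mu)⁻¹ * f mu * osize mu
  rw [mul_comm (osize mu)⁻¹, mul_assoc, inv_mul_cancel₀ (osize_ne mu), mul_one]

/-- Fourier inversion on `𝔫` -/
theorem fourier {θ : AddChar F ℂ} (hθ : θ ≠ 1) (f : UT n F → ℂ) (g : UT n F) :
    f g = (Fintype.card (UT n F) : ℂ)⁻¹ * ∑ mu : Module.Dual F (NT n F),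
      (∑ h : UT n F, f h * θ (-(mu (subOne h)))) * θ (mu (subOne g)) := by
  have hc : (Fintype.card (UT n F) : ℂ) ≠ 0 := by
    exact_mod_cast Fintype.card_ne_zero
  simp_rw [Finset.sum_mul]
  rw [Finset.sum_comm]
  have h1 : ∀ h : UT n F, ∑ mu : Module.Dual F (NT n F),
      f h * θ (-(mu (subOne h))) * θ (mu (subOne g)) =
        if g = h then f h * (Fintype.card (UT n F) : ℂ) else 0 := by
    intro h
    have h2 : ∀ mu : Module.Dual F (NT n F), f h * θ (-(mu (subOne h))) * θ (mu (subOne g)) =
        f h * θ (mu (subOne g - subOne h)) := by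
      intro mu
      rw [mul_assoc, ← AddChar.map_add_eq_mul, map_sub, neg_add_eq_sub]
    simp_rw [h2]
    rw [← Finset.mul_sum, sum_dual hθ]
    by_cases hgh : g = h
    · rw [if_pos hgh, if_pos (by rw [hgh, sub_self])]
    · rw [if_neg hgh, if_neg, mul_zero]
      intro h3
      exact hgh (subOneEquiv.injective (sub_eq_zero.1 h3))
  simp_rw [h1]
  rw [Finset.sum_ite_eq, if_pos (Finset.mem_univ g), mul_comm (f g), inv_mul_cancel_left₀ hc]

/-- a function whose Fourier coefficients are constant on orbits is determined by orbit sums -/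
theorem eq_of_orbitSum_eq {θ : AddChar F ℂ} (hθ : θ ≠ 1) (f : UT n F → ℂ)
    (hf : ∀ (u v : UT n F) (g h : UT n F), subOne g = twoSided u v (subOne h) → f g = f h)
    (g g' : UT n F) (h : ∀ lam : Module.Dual F (NT n F), orbitSum θ lam g = orbitSum θ lam g') :
    f g = f g' := by
  have key : ∀ x : UT n F, f x = (Fintype.card (UT n F) : ℂ)⁻¹ *
      ∑ lam : Module.Dual F (NT n F), (osize lam)⁻¹ *
        ((∑ h : UT n F, f h * θ (-(lam (subOne h)))) * orbitSum θ lam x) := by
    intro x
    rw [fourier hθ f x, sum_orbits]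
    congr 1
    refine Finset.sum_congr rfl fun lam _ => ?_
    congr 1
    rw [orbitSum_eq]
    unfold os
    rw [Finset.mul_sum]
    refine Finset.sum_congr rfl fun mu _ => ?_
    by_cases hmu : mu ∈ orbit lam
    · rw [if_pos hmu, if_pos hmu]
      congr 1
      obtain ⟨u, v, rfl⟩ := hmu
      refine Fintype.sum_equiv ((subOneEquiv (n := n) (F := F)).trans
        ({ toFun := twoSided u v, invFun := twoSided u⁻¹ v⁻¹,
           left_inv := fun y => by rw [twoSided_twoSided]; simp [twoSided_one],
           right_inv := fun y => by rw [twoSided_twoSided]; simp [twoSided_one] } :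
             NT n F ≃ NT n F) |>.trans (subOneEquiv (n := n) (F := F)).symm) _ _ fun h => ?_
      set x' := ((subOneEquiv (n := n) (F := F)).trans
        ({ toFun := twoSided u v, invFun := twoSided u⁻¹ v⁻¹,
           left_inv := fun y => by rw [twoSided_twoSided]; simp [twoSided_one],
           right_inv := fun y => by rw [twoSided_twoSided]; simp [twoSided_one] } :
             NT n F ≃ NT n F) |>.trans (subOneEquiv (n := n) (F := F)).symm) h with hx'
      have h4 : subOne x' = twoSided u v (subOne h) := by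
        rw [hx', ← subOneEquiv_apply]
        simp [subOneEquiv_apply]
      rw [act_apply, ← h4, hf u v x' h h4]
    · rw [if_neg hmu, if_neg hmu, mul_zero]
  rw [key g, key g']
  simp_rw [h]

/-- the orbit sums separate the superclasses -/
theorem superclass_of_orbitSum_eq {θ : AddChar F ℂ} (hθ : θ ≠ 1) (g g' : UT n F)
    (h : ∀ lam : Module.Dual F (NT n F), orbitSum θ lam g = orbitSum θ lam g') :
    g ∈ superclass g' := by
  have h1 := eq_of_orbitSum_eq hθ (fun x => if x ∈ superclass g' then 1 else 0) (by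
    intro u v a b hab
    have : a ∈ superclass g' ↔ b ∈ superclass g' := by
      constructor
      · rintro ⟨p, q, hpq⟩
        refine ⟨u⁻¹ * p, q * v⁻¹, ?_⟩
        rw [← twoSided_twoSided, ← hpq, hab, twoSided_twoSided]
        simp [twoSided_one]
      · rintro ⟨p, q, hpq⟩
        refine ⟨u * p, q * v, ?_⟩
        rw [← twoSided_twoSided, ← hpq, hab]
    simp only [this]) g g' h
  by_contra hcon
  have h2 : g' ∈ superclass g' := ⟨1, 1, by rw [twoSided_one]⟩
  simp only [if_neg hcon, if_pos h2] at h1
  exact zero_ne_one h1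

theorem orbitSum_of_superclass (θ : AddChar F ℂ) (lam : Module.Dual F (NT n F)) {g x : UT n F}
    (h : g ∈ superclass x) : orbitSum θ lam g = orbitSum θ lam x := by
  obtain ⟨u, v, h⟩ := h
  rw [orbitSum_eq, orbitSum_eq, h, os_twoSided]

theorem orbitSum_conj (θ : AddChar F ℂ) (lam : Module.Dual F (NT n F)) (g u : UT n F) :
    orbitSum θ lam (u * g * u⁻¹) = orbitSum θ lam g := by
  rw [orbitSum_eq, orbitSum_eq, subOne_conj, os_twoSided]

/-- convolution of orbit sums -/
theorem orbitSum_conv {θ : AddChar F ℂ} (hθ : θ ≠ 1) (lam nu : Module.Dual F (NT n F))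
    (g : UT n F) :
    ∑ h : UT n F, orbitSum θ lam (g * h⁻¹) * orbitSum θ nu h =
      if orbit lam = orbit nu then (Fintype.card (UT n F) : ℂ) * orbitSum θ lam g else 0 := by
  have h1 : ∀ h : UT n F, orbitSum θ lam (g * h⁻¹) * orbitSum θ nu h =
      ∑ a : Module.Dual F (NT n F), ∑ b : Module.Dual F (NT n F),
        if a ∈ orbit lam ∧ b ∈ orbit nu then θ (a (subOne g)) * θ ((b - a) (subOne h)) else 0 := by
    intro h
    rw [orbitSum_eq, orbitSum_eq, subOne_div, os_twoSided]
    unfold os
    rw [Finset.sum_mul_sum]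
    refine Finset.sum_congr rfl fun a _ => Finset.sum_congr rfl fun b _ => ?_
    by_cases ha : a ∈ orbit lam
    · by_cases hb : b ∈ orbit nu
      · rw [if_pos ha, if_pos hb, if_pos ⟨ha, hb⟩, ← AddChar.map_add_eq_mul,
          ← AddChar.map_add_eq_mul, map_sub, LinearMap.sub_apply]
        congr 1
        ring
      · rw [if_neg hb, mul_zero, if_neg (fun h' => hb h'.2)]
    · rw [if_neg ha, zero_mul, if_neg (fun h' => ha h'.1)]
  simp_rw [h1]
  rw [Finset.sum_comm]
  have h2 : ∀ a : Module.Dual F (NT n F), ∑ h : UT n F, ∑ b : Module.Dual F (NT n F),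
      (if a ∈ orbit lam ∧ b ∈ orbit nu then θ (a (subOne g)) * θ ((b - a) (subOne h)) else 0) =
      if a ∈ orbit lam ∧ a ∈ orbit nu then (Fintype.card (UT n F) : ℂ) * θ (a (subOne g)) else 0 := by
    intro a
    rw [Finset.sum_comm]
    have h3 : ∀ b : Module.Dual F (NT n F), ∑ h : UT n F,
        (if a ∈ orbit lam ∧ b ∈ orbit nu then θ (a (subOne g)) * θ ((b - a) (subOne h)) else 0) =
        if b = a then (if a ∈ orbit lam ∧ b ∈ orbit nu then
          (Fintype.card (UT n F) : ℂ) * θ (a (subOne g)) else 0) else 0 := by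
      intro b
      by_cases hab : a ∈ orbit lam ∧ b ∈ orbit nu
      · simp only [if_pos hab]
        rw [← Finset.mul_sum, sum_NT hθ]
        by_cases hba : b = a
        · rw [if_pos hba, if_pos (sub_eq_zero.2 hba), mul_comm]
        · rw [if_neg hba, if_neg (fun h => hba (sub_eq_zero.1 h)), mul_zero]
      · simp only [if_neg hab, Finset.sum_const_zero, ite_self]
    simp_rw [h3]
    rw [Finset.sum_ite_eq' Finset.univ a, if_pos (Finset.mem_univ a)]
  simp_rw [h2]
  by_cases h : orbit lam = orbit nu
  · rw [if_pos h, orbitSum_eq]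
    unfold os
    rw [Finset.mul_sum]
    refine Finset.sum_congr rfl fun a _ => ?_
    rw [← h]
    by_cases ha : a ∈ orbit lam
    · rw [if_pos ha, if_pos ⟨ha, ha⟩]
    · rw [if_neg ha, if_neg (fun h' => ha h'.1), mul_zero]
  · rw [if_neg h]
    refine Finset.sum_eq_zero fun a _ => ?_
    rw [if_neg]
    rintro ⟨h3, h4⟩
    exact h (by rw [← orbit_eq h3, orbit_eq h4])

end Pool.Agent.H91R2.SC
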