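import Pool.Agent.H91R2.SC.Orb

open scoped BigOperators MatrixGroups Classical

namespace Pool.Agent.H91R2.SC

set_option linter.unusedSectionVars false

variable {n : ℕ} {F : Type} [Field F]

theorem ut_ext {u v : UT n F} (h : ∀ i j, ((u : GL (Fin n) F) : Matrix (Fin n) (Fin n) F) i j =
    ((v : GL (Fin n) F) : Matrix (Fin n) (Fin n) F) i j) : u = v := by
  apply Subtype.ext
  apply Units.ext
  ext i j
  exact h i j

theorem mk_coe (y : NT n F) : (((subOneEquiv.symm y : UT n F) : GL (Fin n) F) :
    Matrix (Fin n) (Fin n) F) = 1 + (y : Matrix (Fin n) (Fin n) F) := by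
  have h : subOne (subOneEquiv.symm y) = y := by
    rw [← subOneEquiv_apply]
    exact subOneEquiv.apply_symm_apply y
  have h1 := congrArg Subtype.val h
  change (((subOneEquiv.symm y : UT n F) : GL (Fin n) F) : Matrix (Fin n) (Fin n) F) - 1 = _ at h1
  rw [← h1]
  abel

/-- `u` with row `i` replaced by row `i` of `u'` -/
noncomputable def updR (i : Fin n) (u u' : UT n F) : UT n F :=
  subOneEquiv.symm ⟨fun k l => if k = i then (subOne u' : Matrix (Fin n) (Fin n) F) k l
    else (subOne u : Matrix (Fin n) (Fin n) F) k l, by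
      intro k l h
      dsimp only
      split_ifs
      · exact (subOne u').2 k l h
      · exact (subOne u).2 k l h⟩

/-- `u` with column `j` replaced by column `j` of `u'` -/
noncomputable def updC (j : Fin n) (u u' : UT n F) : UT n F :=
  subOneEquiv.symm ⟨fun k l => if l = j then (subOne u' : Matrix (Fin n) (Fin n) F) k l
    else (subOne u : Matrix (Fin n) (Fin n) F) k l, by
      intro k l h
      dsimp only
      split_ifs
      · exact (subOne u').2 k l h
      · exact (subOne u).2 k l h⟩

theorem updR_coe (i : Fin n) (u u' : UT n F) (k l : Fin n) :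
    ((updR i u u' : GL (Fin n) F) : Matrix (Fin n) (Fin n) F) k l =
      if k = i then ((u' : GL (Fin n) F) : Matrix (Fin n) (Fin n) F) k l
      else ((u : GL (Fin n) F) : Matrix (Fin n) (Fin n) F) k l := by
  unfold updR
  rw [mk_coe, Matrix.add_apply]
  dsimp only
  split_ifs
  · simp [subOne]
  · simp [subOne]

theorem updC_coe (i : Fin n) (u u' : UT n F) (k l : Fin n) :
    ((updC i u u' : GL (Fin n) F) : Matrix (Fin n) (Fin n) F) k l =
      if l = i then ((u' : GL (Fin n) F) : Matrix (Fin n) (Fin n) F) k l
      else ((u : GL (Fin n) F) : Matrix (Fin n) (Fin n) F) k l := by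
  unfold updC
  rw [mk_coe, Matrix.add_apply]
  dsimp only
  split_ifs
  · simp [subOne]
  · simp [subOne]

/-- swapping row `i` of two matrices -/
noncomputable def swapR (i : Fin n) : UT n F × UT n F ≃ UT n F × UT n F where
  toFun p := (updR i p.1 p.2, updR i p.2 p.1)
  invFun p := (updR i p.1 p.2, updR i p.2 p.1)
  left_inv p := by
    apply Prod.ext
    · apply ut_ext
      intro k l
      simp only [updR_coe]
      split_ifs <;> rfl
    · apply ut_ext
      intro k l
      simp only [updR_coe]
      split_ifs <;> rfl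
  right_inv p := by
    apply Prod.ext
    · apply ut_ext
      intro k l
      simp only [updR_coe]
      split_ifs <;> rfl
    · apply ut_ext
      intro k l
      simp only [updR_coe]
      split_ifs <;> rfl

/-- swapping column `j` of two matrices -/
noncomputable def swapC (i : Fin n) : UT n F × UT n F ≃ UT n F × UT n F where
  toFun p := (updC i p.1 p.2, updC i p.2 p.1)
  invFun p := (updC i p.1 p.2, updC i p.2 p.1)
  left_inv p := by
    apply Prod.ext
    · apply ut_ext
      intro k l
      simp only [updC_coe]
      split_ifs <;> rfl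
    · apply ut_ext
      intro k l
      simp only [updC_coe]
      split_ifs <;> rfl
  right_inv p := by
    apply Prod.ext
    · apply ut_ext
      intro k l
      simp only [updC_coe]
      split_ifs <;> rfl
    · apply ut_ext
      intro k l
      simp only [updC_coe]
      split_ifs <;> rfl

/-- the functional attached to a matrix of coefficients -/
def matFun (m : Fin n → Fin n → F) : Module.Dual F (NT n F) where
  toFun y := ∑ k, ∑ l, m k l * (y : Matrix (Fin n) (Fin n) F) k l
  map_add' y z := by
    simp only [Submodule.coe_add, Matrix.add_apply, mul_add, Finset.sum_add_distrib]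
  map_smul' c y := by
    simp only [Submodule.coe_smul, Matrix.smul_apply, smul_eq_mul, RingHom.id_apply,
      Finset.mul_sum]
    refine Finset.sum_congr rfl fun k _ => Finset.sum_congr rfl fun l _ => by ring

theorem matFun_apply (m : Fin n → Fin n → F) (y : NT n F) :
    matFun m y = ∑ k, ∑ l, m k l * (y : Matrix (Fin n) (Fin n) F) k l := rfl

theorem twoSided_entry (u v : UT n F) (y : NT n F) (p q : Fin n) :
    (twoSided u v y : Matrix (Fin n) (Fin n) F) p q =
      ∑ l, ∑ k, ((u : GL (Fin n) F) : Matrix (Fin n) (Fin n) F) p k *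
        (y : Matrix (Fin n) (Fin n) F) k l *
        ((v : GL (Fin n) F) : Matrix (Fin n) (Fin n) F) l q := by
  rw [twoSided_coe, Matrix.mul_apply]
  refine Finset.sum_congr rfl fun l _ => ?_
  rw [Matrix.mul_apply, Finset.sum_mul]

section fin

variable [Fintype F]

/-- the sum over both factors -/
noncomputable def ds (θ : AddChar F ℂ) (lam : Module.Dual F (NT n F)) (y : NT n F) : ℂ :=
  ∑ u : UT n F, ∑ v : UT n F, θ (lam (twoSided u v y))

theorem ds_eq (θ : AddChar F ℂ) (lam : Module.Dual F (NT n F)) :
    ∃ c : ℂ, c ≠ 0 ∧ ∀ y, ds θ lam y = c * os θ lam y := by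
  let N : Module.Dual F (NT n F) → ℂ := fun mu =>
    ∑ p : UT n F × UT n F, if act p.1 p.2 lam = mu then 1 else 0
  have hN : ∀ mu ∈ orbit lam, N mu = N lam := by
    rintro mu ⟨u0, v0, rfl⟩
    refine (Fintype.sum_equiv ((Equiv.mulRight u0).prodCongr (Equiv.mulLeft v0)) _ _
      fun p => ?_).symm
    change (if act p.1 p.2 lam = lam then (1 : ℂ) else 0) =
      if act (p.1 * u0) (v0 * p.2) lam = act u0 v0 lam then 1 else 0
    rw [← act_act]
    have : act p.1 p.2 lam = lam ↔ act u0 v0 (act p.1 p.2 lam) = act u0 v0 lam :=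
      ((actEquiv u0 v0).injective.eq_iff (a := act p.1 p.2 lam) (b := lam)).symm
    simp only [this]
  have hN0 : N lam ≠ 0 := by
    have h1 : N lam = ((Finset.univ.filter fun p : UT n F × UT n F =>
        act p.1 p.2 lam = lam).card : ℂ) := by
      simp [N, Finset.sum_boole]
    rw [h1]
    have h2 : 0 < (Finset.univ.filter fun p : UT n F × UT n F => act p.1 p.2 lam = lam).card := by
      apply Finset.card_pos.2
      exact ⟨(1, 1), by simp [act_one]⟩
    exact_mod_cast h2.ne'
  refine ⟨N lam, hN0, fun y => ?_⟩
  unfold ds os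
  rw [← Finset.sum_product', Finset.mul_sum, Finset.univ_product_univ]
  have h1 : ∀ p : UT n F × UT n F, θ (lam (twoSided p.1 p.2 y)) =
      ∑ mu : Module.Dual F (NT n F), (if act p.1 p.2 lam = mu then 1 else 0) * θ (mu y) := by
    intro p
    simp only [ite_mul, one_mul, zero_mul, Finset.sum_ite_eq, Finset.mem_univ, if_true]
    rfl
  simp_rw [h1]
  rw [Finset.sum_comm]
  refine Finset.sum_congr rfl fun mu _ => ?_
  rw [← Finset.sum_mul]
  change N mu * _ = _
  by_cases hmu : mu ∈ orbit lam
  · rw [if_pos hmu, hN mu hmu]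
  · rw [if_neg hmu, mul_zero]
    have : N mu = 0 := by
      refine Finset.sum_eq_zero fun p _ => ?_
      rw [if_neg]
      intro h
      exact hmu ⟨p.1, p.2, h.symm⟩
    rw [this, zero_mul]

/-- the product formula: adding a box in a new row and a new column -/
theorem ds_mul (θ : AddChar F ℂ) (m : Fin n → Fin n → F) (i j : Fin n) (a : F)
    (hi : ∀ l, m i l = 0) (hj : ∀ k, m k j = 0) (y : NT n F) :
    ds θ (matFun m) y * ds θ (box i j a) y =
      (Fintype.card (UT n F) : ℂ) * (Fintype.card (UT n F) : ℂ) *
        ds θ (matFun m + box i j a) y := by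
  have h1 : ds θ (matFun m) y * ds θ (box i j a) y =
      ∑ p : UT n F × UT n F, ∑ q : UT n F × UT n F,
        θ (matFun m (twoSided p.1 q.1 y)) * θ (box i j a (twoSided p.2 q.2 y)) := by
    unfold ds
    rw [Finset.sum_mul_sum, ← Finset.sum_product', Finset.univ_product_univ]
    refine Finset.sum_congr rfl fun p _ => ?_
    rw [Finset.sum_mul_sum, ← Finset.sum_product', Finset.univ_product_univ]
  have h2 : (Fintype.card (UT n F) : ℂ) * (Fintype.card (UT n F) : ℂ) *
        ds θ (matFun m + box i j a) y =
      ∑ p : UT n F × UT n F, ∑ q : UT n F × UT n F,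
        θ ((matFun m + box i j a) (twoSided p.1 q.1 y)) := by
    rw [Fintype.sum_prod_type]
    simp_rw [Fintype.sum_prod_type]
    simp only [Finset.sum_const, Finset.card_univ, nsmul_eq_mul, ← Finset.mul_sum]
    unfold ds
    ring
  rw [h1, h2]
  refine Fintype.sum_equiv (swapR i) _ _ fun p => ?_
  refine Fintype.sum_equiv (swapC j) _ _ fun q => ?_
  rw [← AddChar.map_add_eq_mul, LinearMap.add_apply]
  congr 2
  · rw [matFun_apply, matFun_apply]
    refine Finset.sum_congr rfl fun k _ => Finset.sum_congr rfl fun l _ => ?_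
    by_cases hk : k = i
    · rw [hk, hi, zero_mul, zero_mul]
    · by_cases hl : l = j
      · rw [hl, hj, zero_mul, zero_mul]
      · rw [twoSided_entry, twoSided_entry]
        congr 1
        refine Finset.sum_congr rfl fun s _ => Finset.sum_congr rfl fun r _ => ?_
        change _ = ((updR i p.1 p.2 : GL (Fin n) F) : Matrix (Fin n) (Fin n) F) k r * _ *
          ((updC j q.1 q.2 : GL (Fin n) F) : Matrix (Fin n) (Fin n) F) s l
        rw [updR_coe, updC_coe, if_neg hk, if_neg hl]
  · change a * (twoSided p.2 q.2 y : Matrix (Fin n) (Fin n) F) i j =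
      a * (twoSided (updR i p.1 p.2) (updC j q.1 q.2) y : Matrix (Fin n) (Fin n) F) i j
    rw [twoSided_entry, twoSided_entry]
    congr 1
    refine Finset.sum_congr rfl fun s _ => Finset.sum_congr rfl fun r _ => ?_
    rw [updR_coe, updC_coe, if_pos rfl, if_pos rfl]

end fin

end Pool.Agent.H91R2.SC
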